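import Pool.Agent.NRM.Targets

set_option autoImplicit false

open Finset Classical

namespace Pool.Agent.NRM

open Pool.Agent Pool.Agent.Lib.Recon Pool.Agent.RNB Pool.Agent.NRC

namespace ALM_

theorem pow_bd (k : ℕ) (hk : 24 ≤ k) : 20000 * (k + 1) ^ 2 ≤ 2 ^ k := by
  induction k, hk using Nat.le_induction with
  | base => norm_num
  | succ k hk ih =>
    rw [pow_succ 2 k]
    nlinarith

theorem pL_bd {n : ℕ} (hn : 2 ^ 24 ≤ n) : 20000 * pL n ^ 2 ≤ n := by
  have h0 : n ≠ 0 := by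
    rintro rfl
    norm_num at hn
  have h1 : 24 ≤ Nat.log 2 n := Nat.le_log_of_pow_le (by norm_num) hn
  exact (pow_bd _ h1).trans (Nat.pow_log_le_self 2 h0)

theorem lt_L (n : ℕ) : n + 1 ≤ 2 ^ pL n := Nat.lt_pow_succ_log_self (by norm_num) n

theorem one_L (n : ℕ) : 1 ≤ pL n := Nat.succ_pos _

theorem one_l (n : ℕ) : 1 ≤ pl n ^ 2 := Nat.one_le_pow _ _ (Nat.succ_pos _)

/-- the terms of the union over the large complements -/
theorem bound2 (n r c : ℕ) : n ^ r * (c * (2 * n * (n + 1) ^ pd n) ^ r) ≤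
    2 ^ (20003 * pL n * pl n ^ 2 * r) * c := by
  have hL := lt_L n
  have h1 := one_L n
  have h2 := one_l n
  have h3 : n * (2 * n * (n + 1) ^ pd n) ≤ 2 ^ (20003 * pL n * pl n ^ 2) := by
    calc n * (2 * n * (n + 1) ^ pd n)
        ≤ 2 ^ pL n * (2 * 2 ^ pL n * (2 ^ pL n) ^ pd n) := by
          have : n ≤ 2 ^ pL n := by omega
          gcongr
      _ = 2 ^ (pL n + (1 + pL n + pL n * pd n)) := by
          rw [← pow_mul, pow_add 2 (pL n), pow_add 2 (1 + pL n), pow_add 2 1, pow_one]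
      _ ≤ 2 ^ (20003 * pL n * pl n ^ 2) := by
          refine Nat.pow_le_pow_right (by norm_num) ?_
          unfold pd
          nlinarith [Nat.mul_le_mul h1 h2, Nat.mul_le_mul (le_refl (pL n)) h2]
  calc n ^ r * (c * (2 * n * (n + 1) ^ pd n) ^ r)
      = (n * (2 * n * (n + 1) ^ pd n)) ^ r * c := by rw [mul_pow n]; ring
    _ ≤ (2 ^ (20003 * pL n * pl n ^ 2)) ^ r * c :=
        Nat.mul_le_mul_right _ (Nat.pow_le_pow_left h3 _)
    _ = _ := by rw [← pow_mul]

/-- the term of AVM -/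
theorem bound1 (n k c : ℕ) (hk : 1 ≤ k) :
    2 * (n.choose k * (c * (2 * n ^ 3 * 2 ^ pM n) ^ k)) ≤
      2 ^ (20003 * pL n * pl n ^ 2 * k) * c := by
  have hL := lt_L n
  have h1 := one_L n
  have h2 := one_l n
  have h3 : 2 * n * (2 * n ^ 3 * 2 ^ pM n) ≤ 2 ^ (20003 * pL n * pl n ^ 2) := by
    calc 2 * n * (2 * n ^ 3 * 2 ^ pM n)
        ≤ 2 * 2 ^ pL n * (2 * (2 ^ pL n) ^ 3 * 2 ^ pM n) := by
          have : n ≤ 2 ^ pL n := by omega
          gcongr
      _ = 2 ^ (1 + pL n + (1 + pL n * 3 + pM n)) := by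
          rw [← pow_mul, pow_add 2 (1 + pL n), pow_add 2 1, pow_add 2 (1 + pL n * 3),
            pow_add 2 1, pow_one]
      _ ≤ 2 ^ (20003 * pL n * pl n ^ 2) := by
          refine Nat.pow_le_pow_right (by norm_num) ?_
          unfold pM
          nlinarith [Nat.mul_le_mul h1 h2, Nat.mul_le_mul (le_refl (pL n)) h2]
  have h4 : 2 ≤ 2 ^ k := by
    calc 2 = 2 ^ 1 := by norm_num
      _ ≤ 2 ^ k := Nat.pow_le_pow_right (by norm_num) hk
  have h5 := Nat.choose_le_pow n k
  calc 2 * (n.choose k * (c * (2 * n ^ 3 * 2 ^ pM n) ^ k))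
      ≤ 2 ^ k * (n ^ k * (c * (2 * n ^ 3 * 2 ^ pM n) ^ k)) := by gcongr
    _ = (2 * n * (2 * n ^ 3 * 2 ^ pM n)) ^ k * c := by
        rw [mul_pow (2 * n), mul_pow 2 n]; ring
    _ ≤ (2 ^ (20003 * pL n * pl n ^ 2)) ^ k * c :=
        Nat.mul_le_mul_right _ (Nat.pow_le_pow_left h3 _)
    _ = _ := by rw [← pow_mul]

/-- the number of sets with a given number of missing elements -/
theorem cnt (n r : ℕ) (hr : r ≤ n) :
    ((univ : Finset (Finset (Fin n))).filter (fun M => n - M.card = r)).card ≤ n ^ r := by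
  have h1 : ((univ : Finset (Finset (Fin n))).filter (fun M => n - M.card = r)).card ≤
      (powersetCard (n - r) (univ : Finset (Fin n))).card := by
    refine Finset.card_le_card fun M hM => ?_
    rw [Finset.mem_filter] at hM
    rw [Finset.mem_powersetCard]
    refine ⟨Finset.subset_univ _, ?_⟩
    have h7 : M.card ≤ n := by simpa using Finset.card_le_univ M
    omega
  rw [Finset.card_powersetCard, Finset.card_univ, Fintype.card_fin, Nat.choose_symm hr] at h1
  exact h1.trans (Nat.choose_le_pow n r)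

theorem max2 (h : T_MAX) {V : Type} [Fintype V] (G : SimpleGraph V) (K : ℕ) :
    ∃ M Y : Finset V, M.card + Y.card = Fintype.card V ∧ HER47.Dom K G M ∧ Far G K Y := by
  obtain ⟨M, hM, hF⟩ := h V G K
  exact ⟨M, Mᶜ, Finset.card_add_card_compl M, hM, hF⟩

end ALM_

open ALM_ in
theorem p_ALM (h_AVM : T_AVM) (h_MAX : T_MAX) (h_CODE : HER47.T_CODE) : T_ALM := by
  obtain ⟨n1, h1⟩ := h_AVM
  refine ⟨20003, max n1 (2 ^ 24), fun C hC n hn => ?_⟩
  have hn1 : n1 ≤ n := (le_max_left _ _).trans hn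
  have hn2 : 2 ^ 24 ≤ n := (le_max_right _ _).trans hn
  have hk : 1 ≤ pK n := by
    unfold pK
    have h2 := pL_bd hn2
    have h3 := one_L n
    rw [Nat.le_div_iff_mul_le (by positivity)]
    omega
  have hkn : pK n ≤ n := Nat.div_le_self _ _
  have hcov : HER47.bn C n ≤
      Nat.card {G : SimpleGraph (Fin n) // C (Fin n) G ∧ ¬ HER47.Rec G ∧
        ∃ Y : Finset (Fin n), Y.card ≤ pK n ∧ Far G (pd n) Y} +
      ∑ M ∈ (univ : Finset (Finset (Fin n))).filter (fun M => pK n + 1 ≤ n - M.card),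
        Nat.card {G : SimpleGraph (Fin n) // C (Fin n) G ∧ HER47.Dom (pd n) G M} := by
    unfold HER47.bn
    rw [Nat.card_eq_fintype_card, Fintype.card_subtype, Nat.card_eq_fintype_card,
      Fintype.card_subtype]
    have h3 : ∀ M : Finset (Fin n),
        Nat.card {G : SimpleGraph (Fin n) // C (Fin n) G ∧ HER47.Dom (pd n) G M}
        = ((univ : Finset (SimpleGraph (Fin n))).filter
          (fun G => C (Fin n) G ∧ HER47.Dom (pd n) G M)).card := by
      intro M
      rw [Nat.card_eq_fintype_card, Fintype.card_subtype]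
    simp_rw [h3]
    refine (Finset.card_le_card ?_).trans ((Finset.card_union_le _
      (((univ : Finset (Finset (Fin n))).filter (fun M => pK n + 1 ≤ n - M.card)).biUnion
        fun M => (univ : Finset (SimpleGraph (Fin n))).filter
          (fun G => C (Fin n) G ∧ HER47.Dom (pd n) G M))).trans
      (Nat.add_le_add_left Finset.card_biUnion_le _))
    intro G hG
    rw [Finset.mem_filter] at hG
    obtain ⟨M, Y, hY, hM, hYF⟩ := max2 h_MAX G (pd n)
    rw [Fintype.card_fin] at hY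
    rw [Finset.mem_union]
    by_cases hc : Y.card ≤ pK n
    · left
      exact Finset.mem_filter.2 ⟨mem_univ _, hG.2.1, hG.2.2, Y, hc, hYF⟩
    · right
      rw [Finset.mem_biUnion]
      refine ⟨M, Finset.mem_filter.2 ⟨mem_univ _, ?_⟩,
        Finset.mem_filter.2 ⟨mem_univ _, hG.2.1, hM⟩⟩
      omega
  refine hcov.trans ?_
  rw [← Finset.add_sum_erase _ _ (Finset.mem_Icc.2 ⟨le_rfl, hkn⟩ : pK n ∈ Icc (pK n) n)]
  refine Nat.add_le_add ((h1 C hC n hn1).trans (bound1 n _ _ hk)) ?_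
  have hmap : ∀ M ∈ (univ : Finset (Finset (Fin n))).filter (fun M => pK n + 1 ≤ n - M.card),
      n - M.card ∈ (Icc (pK n) n).erase (pK n) := by
    intro M hM
    rw [Finset.mem_filter] at hM
    rw [Finset.mem_erase, Finset.mem_Icc]
    omega
  rw [← Finset.sum_fiberwise_of_maps_to hmap]
  refine Finset.sum_le_sum fun r hr => ?_
  rw [Finset.mem_erase, Finset.mem_Icc] at hr
  have hfib : ∀ M ∈ ((univ : Finset (Finset (Fin n))).filter
      (fun M => pK n + 1 ≤ n - M.card)).filter (fun M => n - M.card = r),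
      Nat.card {G : SimpleGraph (Fin n) // C (Fin n) G ∧ HER47.Dom (pd n) G M} ≤
        HER47.cn C (n - r) * (2 * n * (n + 1) ^ pd n) ^ r := by
    intro M hM
    rw [Finset.mem_filter] at hM
    have h7 : M.card ≤ n := by simpa using Finset.card_le_univ M
    have h6 : M.card = n - r := by omega
    have h8 := h_CODE C hC n (pd n) M
    rw [hM.2, h6] at h8
    exact h8
  refine (Finset.sum_le_card_nsmul _ _ _ hfib).trans ?_
  rw [smul_eq_mul]
  refine (Nat.mul_le_mul_right _ ?_).trans (bound2 n r (HER47.cn C (n - r)))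
  refine (Finset.card_le_card ?_).trans (cnt n r (by omega))
  intro M hM
  rw [Finset.mem_filter] at hM
  exact Finset.mem_filter.2 ⟨mem_univ _, hM.2⟩

end Pool.Agent.NRM
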