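import Pool.Agent.NRM.Targets
import Pool.Agent.NRC.P_SYM

/-!
# NRM-BET: default adjacency of refined classes
-/

set_option autoImplicit false

open Finset Classical

namespace Pool.Agent.NRM

open Pool.Agent Pool.Agent.Lib.Recon Pool.Agent.RNB Pool.Agent.NRC

namespace BET_

variable {V : Type} [Fintype V]

theorem cl_eq {G : SimpleGraph V} {B : Finset V} {u v : V} (h : u ∈ cl G B v) :
    cl G B u = cl G B v := by
  rw [SYM_.mem_cl] at h
  ext y
  rw [SYM_.mem_cl, SYM_.mem_cl]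
  constructor
  · rintro ⟨h1, h2⟩
    exact ⟨h1, fun b hb => (h.2 b hb).trans (h2 b hb)⟩
  · rintro ⟨h1, h2⟩
    exact ⟨h1, fun b hb => (h.2 b hb).symm.trans (h2 b hb)⟩

theorem notMem {G : SimpleGraph V} {A E : Finset V} {v y : V} (h : y ∈ cl G (A ∪ E) v) :
    y ∉ A ∧ y ∉ E := by
  rw [SYM_.mem_cl, mem_union, not_or] at h
  exact h.1

/-- at most `g` vertices of the class of `w` are on the other side -/
theorem few {G : SimpleGraph V} {g : ℕ} {A : Finset V} {x w : V} (hx : x ∉ A)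
    (hxE : x ∉ EE G g A) (hw : w ∉ A) (hxw : x ≠ w) (hin : x ∉ IN G (2 * g) A w) :
    ((cl G A w).filter (fun w' => w' ≠ x ∧ ¬ (G.Adj x w ↔ G.Adj x w'))).card ≤ g := by
  refine SYM_.key G g A x w hx hxE hw hxw.symm ?_
  by_contra h
  exact hin ((SYM_.mem_IN G _ A w x).2 ⟨hx, hxw, by omega⟩)

end BET_

open BET_ in
theorem p_BET : T_BET := by
  intro V _ G g q h A hq a a' y y' ha ha' hy hy' hah hah' hay hay' hin hin'
  by_contra hcon
  rw [LA, mem_filter] at ha hy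
  obtain ⟨-, haF, haq⟩ := ha
  obtain ⟨-, hyF, hyq⟩ := hy
  rw [mem_union, not_or] at haF hyF
  obtain ⟨haA, haE⟩ := haF
  obtain ⟨hyA, hyE⟩ := hyF
  obtain ⟨ha'A, ha'E⟩ := notMem ha'
  obtain ⟨hy'A, hy'E⟩ := notMem hy'
  have hsub : A ⊆ A ∪ EE G g A := subset_union_left
  have hX1 := few haA haE hyA hay hin
  have hX2 := few ha'A ha'E hy'A hay' hin'
  obtain ⟨c, hc, hcn⟩ : ∃ c ∈ cl G (A ∪ EE G g A) y, c ∉ (({a} ∪ {a'}) ∪
      ((cl G A y).filter (fun w' => w' ≠ a ∧ ¬ (G.Adj a y ↔ G.Adj a w')) ∪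
        (cl G A y').filter (fun w' => w' ≠ a' ∧ ¬ (G.Adj a' y' ↔ G.Adj a' w')))) ∪
      (IN G (2 * g) A a ∪ IN G (2 * g) A a') := by
    refine exists_mem_notMem_of_card_lt_card (lt_of_le_of_lt ?_ hyq)
    have h2 := card_union_le (({a} ∪ {a'}) ∪
      ((cl G A y).filter (fun w' => w' ≠ a ∧ ¬ (G.Adj a y ↔ G.Adj a w')) ∪
        (cl G A y').filter (fun w' => w' ≠ a' ∧ ¬ (G.Adj a' y' ↔ G.Adj a' w'))))
      (IN G (2 * g) A a ∪ IN G (2 * g) A a')
    have h3 := card_union_le (({a} : Finset V) ∪ {a'})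
      ((cl G A y).filter (fun w' => w' ≠ a ∧ ¬ (G.Adj a y ↔ G.Adj a w')) ∪
        (cl G A y').filter (fun w' => w' ≠ a' ∧ ¬ (G.Adj a' y' ↔ G.Adj a' w')))
    have h4 := card_union_le (IN G (2 * g) A a) (IN G (2 * g) A a')
    have h5 := card_union_le
      ((cl G A y).filter (fun w' => w' ≠ a ∧ ¬ (G.Adj a y ↔ G.Adj a w')))
      ((cl G A y').filter (fun w' => w' ≠ a' ∧ ¬ (G.Adj a' y' ↔ G.Adj a' w')))
    have h6 := card_union_le ({a} : Finset V) {a'}
    rw [card_singleton, card_singleton] at h6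
    omega
  simp only [mem_union, mem_singleton, not_or] at hcn
  obtain ⟨⟨⟨hca, hca'⟩, hc1, hc2⟩, hc3, hc4⟩ := hcn
  obtain ⟨hcA, hcE⟩ := notMem hc
  have hcy : c ∈ cl G A y := SYM_.cl_mono G hsub y hc
  have hcy' : c ∈ cl G A y' := by
    rw [cl_eq (SYM_.cl_mono G hsub y hy')]
    exact hcy
  have e1 : G.Adj a y ↔ G.Adj a c := by
    by_contra h0
    exact hc1 (mem_filter.2 ⟨hcy, hca, h0⟩)
  have e2 : G.Adj a' y' ↔ G.Adj a' c := by
    by_contra h0
    exact hc2 (mem_filter.2 ⟨hcy', hca', h0⟩)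
  have f1 := few hcA hcE haA hca hc3
  have f2 := few hcA hcE ha'A hca' hc4
  have e3 : cl G A a' = cl G A a := cl_eq (SYM_.cl_mono G hsub a ha')
  rw [e3] at f2
  have h7 : cl G A a ⊆ {c} ∪
      ((cl G A a).filter (fun w' => w' ≠ c ∧ ¬ (G.Adj c a ↔ G.Adj c w')) ∪
        (cl G A a).filter (fun w' => w' ≠ c ∧ ¬ (G.Adj c a' ↔ G.Adj c w'))) := by
    intro x hx
    by_cases h8 : x = c
    · simp [h8]
    · have e4 := G.adj_comm a c
      have e5 := G.adj_comm a' c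
      simp only [mem_union, mem_filter, mem_singleton]
      tauto
  have h8 := card_le_card h7
  have h9 := card_union_le ({c} : Finset V)
      ((cl G A a).filter (fun w' => w' ≠ c ∧ ¬ (G.Adj c a ↔ G.Adj c w')) ∪
        (cl G A a).filter (fun w' => w' ≠ c ∧ ¬ (G.Adj c a' ↔ G.Adj c w')))
  have h10 := card_union_le
      ((cl G A a).filter (fun w' => w' ≠ c ∧ ¬ (G.Adj c a ↔ G.Adj c w')))
      ((cl G A a).filter (fun w' => w' ≠ c ∧ ¬ (G.Adj c a' ↔ G.Adj c w')))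
  rw [card_singleton] at h9
  have h11 := card_le_card (SYM_.cl_mono G hsub a)
  omega

end Pool.Agent.NRM
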