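import Pool.Agent.NRM.Targets

/-!
# NRM, CTM: counting codes in a hereditary class
-/

set_option autoImplicit false

open Finset Classical

namespace Pool.Agent.NRM

open Pool.Agent Pool.Agent.Lib.Recon Pool.Agent.RNB Pool.Agent.NRC

namespace CTM_

section

variable {V : Type} [Fintype V]

/-- the sides depend only on the graph outside `Z` -/
theorem sz_eq {G H : SimpleGraph V} {A Z : Finset V} (hA : ∀ v ∈ Z, v ∉ A)
    (h : ∀ a b, a ∉ Z → b ∉ Z → (G.Adj a b ↔ H.Adj a b)) {z y : V} (hz : z ∉ Z) (hy : y ∉ Z) :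
    sz G A Z z y = sz H A Z z y := by
  ext u
  unfold sz cl
  simp only [mem_sdiff, mem_filter, mem_univ, true_and]
  refine and_congr_left fun hu => and_congr_right fun _ => ?_
  refine forall_congr' fun b => ?_
  constructor
  · intro h1 hb
    have hbZ : b ∉ Z := by
      rcases mem_insert.1 hb with rfl | hbA
      · exact hz
      · exact fun hbZ => hA b hbZ hbA
    rw [← h b y hbZ hy, ← h b u hbZ hu]
    exact h1 hb
  · intro h1 hb
    have hbZ : b ∉ Z := by
      rcases mem_insert.1 hb with rfl | hbA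
      · exact hz
      · exact fun hbZ => hA b hbZ hbA
    rw [h b y hbZ hy, h b u hbZ hu]
    exact h1 hb

theorem Ars_eq {G H : SimpleGraph V} {g : ℕ} {A Z : Finset V} (hA : ∀ v ∈ Z, v ∉ A)
    (h : ∀ a b, a ∉ Z → b ∉ Z → (G.Adj a b ↔ H.Adj a b)) : Ars G g A Z = Ars H g A Z := by
  funext y z
  apply propext
  unfold Ars
  refine and_congr_right fun _ => and_congr_right fun _ => and_congr_right fun hz =>
    and_congr_right fun hy => and_congr_right fun _ => ?_
  rw [sz_eq hA h hz hy]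

theorem BRs_eq {G H : SimpleGraph V} {g : ℕ} {A Z : Finset V} (hA : ∀ v ∈ Z, v ∉ A)
    (h : ∀ a b, a ∉ Z → b ∉ Z → (G.Adj a b ↔ H.Adj a b)) (w : V) :
    BRs G g A Z w = BRs H g A Z w := by
  unfold BRs
  rw [Ars_eq hA h]

end

/-- the code of a subset of a small set -/
noncomputable def enc {n : ℕ} (M : ℕ) (B S : Finset (Fin n)) : Fin M → Bool := fun i =>
  decide (∃ h : (i : ℕ) < B.card, B.orderEmbOfFin rfl ⟨i, h⟩ ∈ S)

theorem enc_inj {n M : ℕ} {B S S' : Finset (Fin n)} (hB : B.card ≤ M) (hS : S ⊆ B)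
    (hS' : S' ⊆ B) (h : enc M B S = enc M B S') : S = S' := by
  have key : ∀ x ∈ B, (x ∈ S ↔ x ∈ S') := by
    intro x hx
    have h2 : x ∈ Set.range (B.orderEmbOfFin rfl) := by
      rw [Finset.range_orderEmbOfFin]
      exact hx
    obtain ⟨i, rfl⟩ := h2
    have h3 := decide_eq_decide.1 (congrFun h ⟨i, lt_of_lt_of_le i.2 hB⟩)
    constructor
    · intro h4
      obtain ⟨h5, h6⟩ := h3.1 ⟨i.2, h4⟩
      exact h6
    · intro h4
      obtain ⟨h5, h6⟩ := h3.2 ⟨i.2, h4⟩
      exact h6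
  ext x
  constructor
  · intro hx
    exact (key x (hS hx)).1 hx
  · intro hx
    exact (key x (hS' hx)).2 hx

/-- the number of graphs for a given set `Z` -/
theorem fixZ (C : HER47.Cls) (hC : HER47.Her C) {n k g M : ℕ} (A Z : Finset (Fin n))
    (hZ : Z.card = k) :
    Nat.card {G : SimpleGraph (Fin n) // C (Fin n) G ∧ GdM G g M A Z} ≤
      HER47.cn C (n - k) * (2 * n ^ 3 * 2 ^ M) ^ k := by
  have hex := fun G : {G : SimpleGraph (Fin n) // C (Fin n) G ∧ GdM G g M A Z} => G.2.2.2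
  choose w u1 u2 b S hall using hex
  have hA := fun G : {G : SimpleGraph (Fin n) // C (Fin n) G ∧ GdM G g M A Z} => G.2.2.1
  have hZc : (Zᶜ).card = n - k := by
    rw [card_compl, Fintype.card_fin, hZ]
  let e : Fin (n - k) ↪ Fin n := (Zᶜ.orderEmbOfFin hZc).toEmbedding
  have he : ∀ a, a ∉ Z → ∃ i, e i = a := by
    intro a ha
    have h2 : a ∈ Set.range (Zᶜ.orderEmbOfFin hZc) := by
      rw [Finset.range_orderEmbOfFin]
      exact mem_compl.2 ha
    exact h2
  let cod : {G : SimpleGraph (Fin n) // C (Fin n) G ∧ GdM G g M A Z} →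
      {G : SimpleGraph (Fin (n - k)) // C (Fin (n - k)) G} ×
        ({v // v ∈ Z} → Fin n × Fin n × Fin n × Bool × (Fin M → Bool)) :=
    fun G => (⟨G.1.comap e, hC _ _ e G.1 G.2.1⟩,
      fun v => (w G v.1, u1 G v.1, u2 G v.1, b G v.1,
        enc M (BRs G.1 g A Z (w G v.1)) (S G v.1)))
  have hinj : Function.Injective cod := by
    intro G H hGH
    apply Subtype.ext
    have a1 : G.1.comap e = H.1.comap e := by
      have := congrArg
        (fun p => (p.1 : {G : SimpleGraph (Fin (n - k)) // C (Fin (n - k)) G}).1) hGH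
      exact this
    have a2 : ∀ v : {v // v ∈ Z}, (w G v.1, u1 G v.1, u2 G v.1, b G v.1,
        enc M (BRs G.1 g A Z (w G v.1)) (S G v.1)) =
        (w H v.1, u1 H v.1, u2 H v.1, b H v.1,
        enc M (BRs H.1 g A Z (w H v.1)) (S H v.1)) := by
      intro v
      have := congrArg (fun p => p.2 v) hGH
      exact this
    have b1 : ∀ v ∈ Z, w G v = w H v := fun v hv => congrArg (fun p => p.1) (a2 ⟨v, hv⟩)
    have b2 : ∀ v ∈ Z, u1 G v = u1 H v := fun v hv => congrArg (fun p => p.2.1) (a2 ⟨v, hv⟩)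
    have b3 : ∀ v ∈ Z, u2 G v = u2 H v := fun v hv => congrArg (fun p => p.2.2.1) (a2 ⟨v, hv⟩)
    have b4 : ∀ v ∈ Z, b G v = b H v := fun v hv => congrArg (fun p => p.2.2.2.1) (a2 ⟨v, hv⟩)
    have b5 : ∀ v ∈ Z, enc M (BRs G.1 g A Z (w G v)) (S G v) =
        enc M (BRs H.1 g A Z (w H v)) (S H v) :=
      fun v hv => congrArg (fun p => p.2.2.2.2) (a2 ⟨v, hv⟩)
    -- outside `Z`
    have hout : ∀ a b, a ∉ Z → b ∉ Z → (G.1.Adj a b ↔ H.1.Adj a b) := by
      intro a b ha hb
      obtain ⟨i, rfl⟩ := he a ha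
      obtain ⟨j, rfl⟩ := he b hb
      have h5 : (G.1.comap e).Adj i j ↔ (H.1.comap e).Adj i j := by rw [a1]
      exact h5
    have hBR : ∀ x, BRs G.1 g A Z x = BRs H.1 g A Z x := fun x => BRs_eq (hA G) hout x
    have hS : ∀ v ∈ Z, S G v = S H v := by
      intro v hv
      have c1 := hall G v hv
      have c2 := hall H v hv
      have c3 := b5 v hv
      have c4 := c1.2.2.2.2.1
      rw [hBR, b1 v hv] at c3 c4
      exact enc_inj c2.2.2.2.1 c4 c2.2.2.2.2.1 c3
    have hin : ∀ z, z ∉ Z → ∀ v ∈ Z, (G.1.Adj z v ↔ H.1.Adj z v) := by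
      intro z hz v hv
      obtain ⟨-, d2, -, -, -, d6, -⟩ := hall G v hv
      obtain ⟨-, f2, -, -, -, f6, -⟩ := hall H v hv
      have d7 := d6 z hz
      have f7 := f6 z hz
      rw [hBR, b1 v hv, hS v hv, b2 v hv, b4 v hv] at d7
      rw [hout z (u1 H v) hz f2, sz_eq (hA G) hout hz f2] at d7
      exact d7.trans f7.symm
    have hii : ∀ v' ∈ Z, ∀ v ∈ Z, (G.1.Adj v' v ↔ H.1.Adj v' v) := by
      intro v' hv' v hv
      by_cases hne : v' = v
      · rw [hne]
        simp
      · obtain ⟨-, d2, -, -, -, -, d7⟩ := hall G v hv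
        obtain ⟨-, f2, -, -, -, -, f7⟩ := hall H v hv
        obtain ⟨-, -, k3, -⟩ := hall H v' hv'
        have d8 := d7 v' hv' hne
        have f8 := f7 v' hv' hne
        rw [b2 v hv, b3 v' hv', hout _ _ k3 f2, sz_eq (hA G) hout k3 f2] at d8
        exact d8.trans f8.symm
    ext x y
    by_cases hx : x ∈ Z
    · by_cases hy : y ∈ Z
      · exact hii x hx y hy
      · rw [G.1.adj_comm, H.1.adj_comm]
        exact hin y hy x hx
    · by_cases hy : y ∈ Z
      · exact hin x hx y hy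
      · exact hout x y hx hy
  refine (Nat.card_le_card_of_injective cod hinj).trans (le_of_eq ?_)
  have hc1 : Nat.card {v : Fin n // v ∈ Z} = k := by
    rw [Nat.card_eq_fintype_card, Fintype.card_coe, hZ]
  have hc2 : Nat.card (Fin n) = n := by simp
  have hc3 : Nat.card Bool = 2 := by simp
  have hc4 : Nat.card (Fin M → Bool) = 2 ^ M := by
    rw [Nat.card_fun, hc3]
    simp
  rw [Nat.card_prod, Nat.card_fun, Nat.card_prod, Nat.card_prod, Nat.card_prod, Nat.card_prod,
    hc1, hc2, hc3, hc4]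
  show HER47.cn C (n - k) * _ = _
  congr 2
  ring

end CTM_

theorem p_CTM : T_CTM := by
  intro C hC n k g M A _
  let f : {G : SimpleGraph (Fin n) // C (Fin n) G ∧
      ∃ Z : Finset (Fin n), Z.card = k ∧ GdM G g M A Z} →
      (Σ Z : {Z : Finset (Fin n) // Z.card = k},
        {G : SimpleGraph (Fin n) // C (Fin n) G ∧ GdM G g M A Z.1}) :=
    fun G => ⟨⟨G.2.2.choose, G.2.2.choose_spec.1⟩, ⟨G.1, G.2.1, G.2.2.choose_spec.2⟩⟩
  have hf : Function.Injective f := by
    intro G H hGH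
    apply Subtype.ext
    have := congrArg (fun s : (Σ Z : {Z : Finset (Fin n) // Z.card = k},
        {G : SimpleGraph (Fin n) // C (Fin n) G ∧ GdM G g M A Z.1}) => s.2.1) hGH
    exact this
  refine (Nat.card_le_card_of_injective f hf).trans ?_
  rw [Nat.card_sigma]
  calc ∑ Z : {Z : Finset (Fin n) // Z.card = k},
        Nat.card {G : SimpleGraph (Fin n) // C (Fin n) G ∧ GdM G g M A Z.1}
      ≤ ∑ _Z : {Z : Finset (Fin n) // Z.card = k},
        HER47.cn C (n - k) * (2 * n ^ 3 * 2 ^ M) ^ k :=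
        Finset.sum_le_sum fun Z _ => CTM_.fixZ C hC A Z.1 Z.2
    _ = n.choose k * (HER47.cn C (n - k) * (2 * n ^ 3 * 2 ^ M) ^ k) := by
        rw [Finset.sum_const, Finset.card_univ, Fintype.card_finset_len, Fintype.card_fin,
          smul_eq_mul]

end Pool.Agent.NRM
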