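import Pool.Agent.NRM.Targets
import Pool.Agent.NRC.P_ELO

set_option autoImplicit false

open Finset Classical

namespace Pool.Agent.NRM

open Pool.Agent Pool.Agent.Lib.Recon Pool.Agent.RNB Pool.Agent.NRC

theorem p_ELM : T_ELM := by
  intro V _ G g q d A Y0 hd
  set B := A ∪ EE G g A with hB
  set Y := (LA G g q A \ Y0).filter (fun y => 2 * (IN G (2 * g) A y).card < d) with hY
  have hYm : ∀ y ∈ Y, y ∉ B ∧ q < (cl G B y).card ∧ 2 * (IN G (2 * g) A y).card < d ∧
      y ∉ Y0 := by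
    intro y hy
    rw [hY, mem_filter, mem_sdiff] at hy
    have h1 := hy.1.1
    unfold LA at h1
    rw [mem_filter] at h1
    exact ⟨h1.2.1, h1.2.2, hy.2, hy.1.2⟩
  have hno : ∀ y ∈ Y, ∀ y' ∈ Y, y ≠ y' → y' ∉ cl G B y := by
    intro y hy y' hy' hne h
    have h1 := hYm y hy
    have h2 := hYm y' hy'
    have hyA : y ∉ A := fun hA => h1.1 (mem_union_left _ hA)
    have h3 := card_le_card (ELO_.sub hyA h)
    have h4 := card_union_le (IN G (2 * g) A y) (IN G (2 * g) A y')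
    have h5 := hd y y' h1.2.2.2 h2.2.2.2 hne
    omega
  have hdis : ∀ y ∈ Y, ∀ y' ∈ Y, y ≠ y' → Disjoint (cl G B y) (cl G B y') := by
    intro y hy y' hy' hne
    rw [Finset.disjoint_left]
    intro w hw hw'
    apply hno y hy y' hy' hne
    rw [← KEY_.cl_eq hw, KEY_.cl_eq hw', KEY_.mem_cl]
    exact ⟨(hYm y' hy').1, fun b _ => Iff.rfl⟩
  have hcard : (Y.biUnion fun y => cl G B y).card = ∑ y ∈ Y, (cl G B y).card :=
    Finset.card_biUnion fun y hy y' hy' hne => hdis y hy y' hy' hne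
  have h6 : Y.card * q ≤ ∑ y ∈ Y, (cl G B y).card := by
    rw [← smul_eq_mul]
    exact Finset.card_nsmul_le_sum _ _ _ fun y hy => (hYm y hy).2.1.le
  calc q * Y.card = Y.card * q := mul_comm _ _
    _ ≤ ∑ y ∈ Y, (cl G B y).card := h6
    _ = (Y.biUnion fun y => cl G B y).card := hcard.symm
    _ ≤ Fintype.card V := Finset.card_le_univ _

end Pool.Agent.NRM
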