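import Pool.Agent.NRM.Targets

/-!
# Target HLM: half of all nets
-/

set_option autoImplicit false

open Finset Classical

namespace Pool.Agent.NRM

open Pool.Agent Pool.Agent.Lib.Recon Pool.Agent.RNB Pool.Agent.NRC

namespace HLM_

lemma card_Bi {V : Type} [Fintype V] {k : ℕ} (x : Fin k → V) (i : ℕ) :
    (Bi (∅ : Finset V) x i).card ≤ k := by
  unfold Bi
  rw [empty_union]
  refine card_image_le.trans ((card_le_univ _).trans ?_)
  rw [Fintype.card_fin]

lemma pL_pos (n : ℕ) : 0 < pL n := Nat.succ_pos _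

end HLM_

theorem p_HLM (h_RSQ : NRC.T_RSQ) (h_NPA : NRC.T_NPA) (h_ONM : T_ONM) : T_HLM := by
  obtain ⟨n1, h1⟩ := h_NPA
  obtain ⟨n2, h2⟩ := h_ONM
  refine ⟨max (max n1 n2) 1, ?_⟩
  intro V _ G hn hrec Y hY hfar
  have hn1 : n1 ≤ Fintype.card V := ((le_max_left _ _).trans (le_max_left _ _)).trans hn
  have hn2 : n2 ≤ Fintype.card V := ((le_max_right _ _).trans (le_max_left _ _)).trans hn
  have hn3 : 1 ≤ Fintype.card V := (le_max_right _ _).trans hn
  obtain ⟨-, hnum, -⟩ := h1 _ hn1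
  have hn0 : (0 : ℝ) < Fintype.card V := by exact_mod_cast hn3
  have hL0 : (0 : ℝ) < pL (Fintype.card V) := by exact_mod_cast HLM_.pL_pos _
  have hR := h_RSQ V G (pN (Fintype.card V))
    (4 * (Fintype.card V : ℝ) * (pL (Fintype.card V) : ℝ) ^ 3) (by positivity) hnum
  have hR' : Fintype.card (Fin (pN (Fintype.card V)) × (Fin (pN (Fintype.card V)) → V)) ≤
      2 * (univ.filter (fun p : Fin (pN (Fintype.card V)) × (Fin (pN (Fintype.card V)) → V) =>
        (sm G (Bi ∅ p.2 p.1) : ℝ) ≤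
          4 * (Fintype.card V : ℝ) * (pL (Fintype.card V) : ℝ) ^ 3)).card := by
    have hcard : Fintype.card (Fin (pN (Fintype.card V)) × (Fin (pN (Fintype.card V)) → V)) =
        pN (Fintype.card V) * Fintype.card V ^ pN (Fintype.card V) := by
      rw [Fintype.card_prod, Fintype.card_fun, Fintype.card_fin]
    rw [hcard]
    exact_mod_cast hR
  refine hR'.trans (Nat.mul_le_mul_left 2 (card_le_card ?_))
  intro p hp
  rw [mem_filter] at hp ⊢
  exact ⟨mem_univ _, h2 V G hn2 hrec Y hY hfar _ (HLM_.card_Bi _ _) hp.2⟩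

end Pool.Agent.NRM
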