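import Pool.Agent.NRM.Targets

/-!
# NRM, target INM: infinitely many n
-/

set_option autoImplicit false

open Finset Classical

namespace Pool.Agent.NRM

open Pool.Agent Pool.Agent.Lib.Recon Pool.Agent.RNB Pool.Agent.NRC

namespace INM_

lemma lt_pow (n : ℕ) : n < 2 ^ pL n := Nat.lt_pow_succ_log_self one_lt_two n

lemma pL_mono {m n : ℕ} (h : m ≤ n) : pL m ≤ pL n :=
  Nat.add_le_add_right (Nat.log_mono_right h) 1

lemma pl_mono {m n : ℕ} (h : m ≤ n) : pl m ≤ pl n :=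
  Nat.add_le_add_right (Nat.log_mono_right (pL_mono h)) 1

lemma pl_large (E : ℕ) : ∃ n1 : ℕ, ∀ m : ℕ, n1 ≤ m → E ≤ pl m := by
  refine ⟨2 ^ 2 ^ E, fun m hm => ?_⟩
  have hm0 : m ≠ 0 := by
    have : 0 < 2 ^ 2 ^ E := by positivity
    omega
  have h1 : 2 ^ E ≤ Nat.log 2 m := Nat.le_log_of_pow_le one_lt_two hm
  have h2 : E ≤ Nat.log 2 (pL m) := by
    refine Nat.le_log_of_pow_le one_lt_two ?_
    unfold pL
    omega
  unfold pl
  omega

lemma sq_le (j : ℕ) : 1000 * (23 + j) ^ 2 ≤ 2 ^ (22 + j) := by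
  induction j with
  | zero => norm_num
  | succ j ih =>
    have e : 2 ^ (22 + (j + 1)) = 2 * 2 ^ (22 + j) := by rw [← add_assoc, pow_succ]; ring
    have e2 : 2 * (23 + j) ^ 2 = (23 + (j + 1)) ^ 2 + (482 + 44 * j + j ^ 2) := by ring
    rw [e]
    linarith [Nat.zero_le (482 + 44 * j + j ^ 2)]

/-- the sizes for `pl m ≥ 64` -/
lemma sizes {m : ℕ} (h : 64 ≤ pl m) : 23 ≤ pL m ∧ 2 ^ (pL m - 1) ≤ m ∧ 1000 * pL m ^ 2 ≤ m ∧
    1 ≤ pK m ∧ m ≤ 2000 * pL m ^ 2 * pK m := by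
  have h0 : pL m ≠ 0 := by unfold pL; omega
  have h1 : 5 ≤ Nat.log 2 (pL m) := by unfold pl at h; omega
  have h2 : 2 ^ 5 ≤ pL m :=
    (Nat.pow_le_pow_right (by norm_num) h1).trans (Nat.pow_log_le_self 2 h0)
  have h3 : 23 ≤ pL m := by omega
  have hm0 : m ≠ 0 := by
    rintro rfl
    unfold pL at h3
    simp at h3
  have h4 : 2 ^ (pL m - 1) ≤ m := by
    unfold pL
    rw [Nat.add_sub_cancel]
    exact Nat.pow_log_le_self 2 hm0
  have h5 : 1000 * pL m ^ 2 ≤ m := by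
    obtain ⟨j, hj⟩ := Nat.exists_eq_add_of_le h3
    rw [hj] at h4 ⊢
    have e : 23 + j - 1 = 22 + j := by omega
    rw [e] at h4
    exact (sq_le j).trans h4
  have hB : 0 < 1000 * pL m ^ 2 := by positivity
  have h6 : 1 ≤ pK m := by
    unfold pK
    exact (Nat.le_div_iff_mul_le hB).2 (by omega)
  refine ⟨h3, h4, h5, h6, ?_⟩
  have h7 : m < 1000 * pL m ^ 2 * (pK m + 1) := Nat.lt_mul_div_succ m hB
  have h8 : 1000 * pL m ^ 2 * (pK m + 1) ≤ 1000 * pL m ^ 2 * (2 * pK m) :=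
    Nat.mul_le_mul_left _ (by omega)
  have e : 1000 * pL m ^ 2 * (2 * pK m) = 2000 * pL m ^ 2 * pK m := by ring
  omega

lemma log_ge {m : ℕ} (h : 64 ≤ pl m) : (pL m : ℝ) / 2 ≤ Real.logb 2 m ∧
    (pl m : ℝ) / 2 ≤ Real.logb 2 (Real.logb 2 m) := by
  obtain ⟨h1, h2, h3, -, -⟩ := sizes h
  have hm0 : 0 < m := lt_of_lt_of_le (by positivity) h2
  obtain ⟨a, ha⟩ : ∃ a, pL m = a + 1 := ⟨pL m - 1, by omega⟩
  obtain ⟨j, hj⟩ : ∃ j, pl m = j + 2 := ⟨pl m - 2, by omega⟩
  have e1 : (a : ℝ) ≤ Real.logb 2 m := by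
    rw [Real.le_logb_iff_rpow_le one_lt_two (by positivity), Real.rpow_natCast]
    rw [ha, Nat.add_sub_cancel] at h2
    exact_mod_cast h2
  have e2 : (pL m : ℝ) / 2 ≤ Real.logb 2 m := by
    refine le_trans ?_ e1
    rw [ha]
    push_cast
    have : (1 : ℝ) ≤ a := by
      have : 1 ≤ a := by omega
      exact_mod_cast this
    linarith
  refine ⟨e2, ?_⟩
  have h4 : 2 ^ (j + 1) ≤ pL m := by
    have : Nat.log 2 (pL m) = j + 1 := by unfold pl at hj; omega
    rw [← this]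
    exact Nat.pow_log_le_self 2 (by omega)
  have h5 : ((2 : ℝ) ^ (j : ℝ)) ≤ Real.logb 2 m := by
    refine le_trans ?_ e2
    rw [Real.rpow_natCast]
    have h6 : ((2 ^ (j + 1) : ℕ) : ℝ) ≤ (pL m : ℝ) := by exact_mod_cast h4
    push_cast at h6
    rw [pow_succ] at h6
    linarith
  have h7 : (j : ℝ) ≤ Real.logb 2 (Real.logb 2 m) := by
    rw [Real.le_logb_iff_rpow_le one_lt_two (lt_of_lt_of_le (by positivity) h5)]
    exact h5
  refine le_trans ?_ h7
  rw [hj]
  push_cast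
  have : (2 : ℝ) ≤ j := by
    have : 2 ≤ j := by omega
    exact_mod_cast this
  linarith

lemma num {m : ℕ} (h : 64 ≤ pl m) : ((m : ℝ) + 1) * (2 : ℝ) ^ ((m : ℝ) / Real.logb 2 m) ≤
    (2 : ℝ) ^ (pL m * pl m ^ 2 * pK m) := by
  obtain ⟨h1, h2, h3, h4, h5⟩ := sizes h
  obtain ⟨g1, -⟩ := log_ge h
  have hL : (23 : ℝ) ≤ pL m := by exact_mod_cast h1
  have hL0 : (0 : ℝ) < pL m := by linarith
  have hK : (1 : ℝ) ≤ pK m := by exact_mod_cast h4
  have hl : (64 : ℝ) ≤ pl m := by exact_mod_cast h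
  have hm : (m : ℝ) ≤ 2000 * (pL m : ℝ) ^ 2 * pK m := by exact_mod_cast h5
  have a1 : (m : ℝ) + 1 ≤ (2 : ℝ) ^ (pL m : ℝ) := by
    rw [Real.rpow_natCast]
    exact_mod_cast lt_pow m
  have a2 : (m : ℝ) / Real.logb 2 m ≤ 2 * ((m : ℝ) / pL m) := by
    have e : 2 * ((m : ℝ) / pL m) = (m : ℝ) / ((pL m : ℝ) / 2) := by
      field_simp
    rw [e]
    exact div_le_div_of_nonneg_left (by positivity) (by positivity) g1
  have a3 : (m : ℝ) / pL m ≤ 2000 * pL m * pK m := by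
    rw [div_le_iff₀ hL0]
    calc (m : ℝ) ≤ 2000 * (pL m : ℝ) ^ 2 * pK m := hm
      _ = _ := by ring
  have a4 : (pL m : ℝ) + 2 * ((m : ℝ) / pL m) ≤ ((pL m * pl m ^ 2 * pK m : ℕ) : ℝ) := by
    push_cast
    have b1 : (4096 : ℝ) ≤ (pl m : ℝ) ^ 2 := by nlinarith
    have b2 : (0 : ℝ) ≤ (pL m : ℝ) * pK m := by positivity
    have b3 : (pL m : ℝ) ≤ pL m * pK m := by nlinarith
    calc (pL m : ℝ) + 2 * ((m : ℝ) / pL m) ≤ 4096 * ((pL m : ℝ) * pK m) := by nlinarith
      _ ≤ (pl m : ℝ) ^ 2 * ((pL m : ℝ) * pK m) := mul_le_mul_of_nonneg_right b1 b2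
      _ = _ := by ring
  calc ((m : ℝ) + 1) * (2 : ℝ) ^ ((m : ℝ) / Real.logb 2 m)
      ≤ (2 : ℝ) ^ (pL m : ℝ) * (2 : ℝ) ^ (2 * ((m : ℝ) / pL m)) :=
        mul_le_mul a1 (Real.rpow_le_rpow_of_exponent_le (by norm_num) a2) (by positivity)
          (by positivity)
    _ = (2 : ℝ) ^ ((pL m : ℝ) + 2 * ((m : ℝ) / pL m)) := by
        rw [Real.rpow_add (by norm_num)]
    _ ≤ (2 : ℝ) ^ ((pL m * pl m ^ 2 * pK m : ℕ) : ℝ) :=
        Real.rpow_le_rpow_of_exponent_le (by norm_num) a4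
    _ = _ := Real.rpow_natCast _ _

end INM_

open INM_ in
theorem p_INM (h_ALM : T_ALM) : T_INM := by
  obtain ⟨C0, n₀, hn₀⟩ := h_ALM
  refine ⟨8 * ((C0 : ℝ) + 2), by positivity, ?_⟩
  intro C hC hBig N
  by_contra hcon
  push Not at hcon
  obtain ⟨n1, hn1⟩ := pl_large 64
  set N₁ : ℕ := max N (max n₀ n1) with hN₁
  set D : ℕ := 1 + ∑ m ∈ range (N₁ + 1), HER47.cn C m with hD
  have hsmall : ∀ m, m ≤ N₁ → HER47.cn C m ≤ D := by
    intro m hm
    have := Finset.single_le_sum (f := fun m => HER47.cn C m) (s := range (N₁ + 1))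
      (fun i _ => Nat.zero_le _) (Finset.mem_range.mpr (by omega : m < N₁ + 1))
    omega
  have claim : ∀ n m : ℕ, m ≤ n →
      HER47.cn C m ≤ D * 2 ^ ((C0 + 1) * (pL n * pl n ^ 2) * m) := by
    intro n m
    induction m using Nat.strong_induction_on with
    | _ m ih =>
      intro hmn
      rcases Nat.lt_or_ge N₁ m with hm | hm
      · have hmN : N ≤ m := le_trans (le_max_left _ _) hm.le
        have hmn₀ : n₀ ≤ m :=
          le_trans (le_trans (le_max_left _ _) (le_max_right _ _)) hm.le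
        have hmn1 : n1 ≤ m :=
          le_trans (le_trans (le_max_right _ _) (le_max_right _ _)) hm.le
        have h64 := hn1 m hmn1
        obtain ⟨-, -, -, hk1, -⟩ := sizes h64
        have h1 := hcon m hmN
        have h2 := hn₀ C hC m hmn₀
        set X : ℕ := pL m * pl m ^ 2 with hX
        set Y : ℕ := pL n * pl n ^ 2 with hY
        have hXY : X ≤ Y := Nat.mul_le_mul (pL_mono hmn) (Nat.pow_le_pow_left (pl_mono hmn) 2)
        have h3 : (∑ r ∈ Icc (pK m) m, 2 ^ (C0 * pL m * pl m ^ 2 * r) * HER47.cn C (m - r)) *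
            2 ^ (X * pK m) ≤ (m + 1) * (D * 2 ^ ((C0 + 1) * Y * m)) := by
          rw [Finset.sum_mul]
          have h4 : ∀ r ∈ Icc (pK m) m, 2 ^ (C0 * pL m * pl m ^ 2 * r) * HER47.cn C (m - r) *
              2 ^ (X * pK m) ≤ D * 2 ^ ((C0 + 1) * Y * m) := by
            intro r hr
            rw [Finset.mem_Icc] at hr
            have h5 := ih (m - r) (by omega) (by omega)
            have h6 : C0 * pL m * pl m ^ 2 * r + (C0 + 1) * Y * (m - r) + X * pK m ≤
                (C0 + 1) * Y * m := by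
              have h7 : X * pK m ≤ X * r := Nat.mul_le_mul_left _ hr.1
              have h8 : (C0 + 1) * (X * r) ≤ (C0 + 1) * (Y * r) :=
                Nat.mul_le_mul_left _ (Nat.mul_le_mul_right _ hXY)
              have h9 : (C0 + 1) * Y * m = (C0 + 1) * Y * (m - r) + (C0 + 1) * (Y * r) := by
                obtain ⟨s, hs⟩ := Nat.exists_eq_add_of_le hr.2
                rw [hs, Nat.add_sub_cancel_left]
                ring
              rw [h9]
              have h10 : C0 * pL m * pl m ^ 2 * r + X * r = (C0 + 1) * (X * r) := by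
                rw [hX]; ring
              omega
            calc 2 ^ (C0 * pL m * pl m ^ 2 * r) * HER47.cn C (m - r) * 2 ^ (X * pK m)
                ≤ 2 ^ (C0 * pL m * pl m ^ 2 * r) * (D * 2 ^ ((C0 + 1) * Y * (m - r))) *
                  2 ^ (X * pK m) := by gcongr
              _ = D * 2 ^ (C0 * pL m * pl m ^ 2 * r + (C0 + 1) * Y * (m - r) + X * pK m) := by
                  rw [pow_add, pow_add]; ring
              _ ≤ _ := Nat.mul_le_mul_left _ (Nat.pow_le_pow_right (by norm_num) h6)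
          calc _ ≤ (Icc (pK m) m).card • (D * 2 ^ ((C0 + 1) * Y * m)) :=
                Finset.sum_le_card_nsmul _ _ _ h4
            _ ≤ (m + 1) * (D * 2 ^ ((C0 + 1) * Y * m)) := by
                rw [smul_eq_mul]
                apply Nat.mul_le_mul_right
                rw [Nat.card_Icc]
                omega
        have h11 := num h64
        rw [← hX] at h11
        set P : ℝ := (2 : ℝ) ^ ((m : ℝ) / Real.logb 2 m) with hP
        have hP0 : 0 < P := by positivity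
        set S : ℕ := ∑ r ∈ Icc (pK m) m, 2 ^ (C0 * pL m * pl m ^ 2 * r) * HER47.cn C (m - r)
          with hS
        set Z : ℕ := D * 2 ^ ((C0 + 1) * Y * m) with hZ
        have h3' : (S : ℝ) * 2 ^ (X * pK m) ≤ ((m : ℝ) + 1) * Z := by exact_mod_cast h3
        have h2' : (HER47.bn C m : ℝ) ≤ S := by exact_mod_cast h2
        have h12 : (2 : ℝ) ^ (X * pK m) * (HER47.cn C m : ℝ) ≤ (2 : ℝ) ^ (X * pK m) * Z := by
          calc (2 : ℝ) ^ (X * pK m) * (HER47.cn C m : ℝ)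
              ≤ (2 : ℝ) ^ (X * pK m) * (P * S) :=
                mul_le_mul_of_nonneg_left
                  (h1.le.trans (mul_le_mul_of_nonneg_left h2' hP0.le)) (by positivity)
            _ = P * (S * 2 ^ (X * pK m)) := by ring
            _ ≤ P * (((m : ℝ) + 1) * Z) := mul_le_mul_of_nonneg_left h3' hP0.le
            _ = (((m : ℝ) + 1) * P) * Z := by ring
            _ ≤ (2 : ℝ) ^ (X * pK m) * Z := mul_le_mul_of_nonneg_right h11 (by positivity)
        have h13 : (HER47.cn C m : ℝ) ≤ Z := le_of_mul_le_mul_left h12 (by positivity)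
        exact_mod_cast h13
      · exact (hsmall m hm).trans (Nat.le_mul_of_pos_right _ (by positivity))
  obtain ⟨n, hn, hb⟩ := hBig (max n1 D)
  have hnn1 : n1 ≤ n := le_trans (le_max_left _ _) hn
  have hnD : D ≤ n := le_trans (le_max_right _ _) hn
  have h64 := hn1 n hnn1
  have h1 := claim n n le_rfl
  obtain ⟨s1, s2, -, -, -⟩ := sizes h64
  obtain ⟨g1, g2⟩ := log_ge h64
  unfold Big2 at hb
  have hL0 : (0 : ℝ) < pL n := by
    have : 0 < pL n := by omega
    exact_mod_cast this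
  have hl0 : (0 : ℝ) < pl n := by
    have : 0 < pl n := by omega
    exact_mod_cast this
  have hn0 : (0 : ℝ) < n := by
    have : 0 < n := lt_of_lt_of_le (by positivity) s2
    exact_mod_cast this
  have hq : ((pl n : ℝ) / 2) ^ 2 ≤ Real.logb 2 (Real.logb 2 n) ^ 2 :=
    pow_le_pow_left₀ (by positivity) g2 2
  have hn2 : (2 : ℝ) ^ ((pL n : ℝ) / 2) ≤ n := by
    rw [← Real.le_logb_iff_rpow_le one_lt_two hn0]
    exact g1
  have h2 : ((2 ^ ((C0 + 2) * (pL n * pl n ^ 2) * n) : ℕ) : ℝ) ≤ (HER47.cn C n : ℝ) := by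
    refine le_trans ?_ hb
    have e1 : ((2 ^ ((C0 + 2) * (pL n * pl n ^ 2) * n) : ℕ) : ℝ) =
        ((2 : ℝ) ^ ((pL n : ℝ) / 2)) ^ (8 * ((C0 : ℝ) + 2) * n * ((pl n : ℝ) / 2) ^ 2) := by
      rw [← Real.rpow_mul (by norm_num)]
      push_cast
      rw [← Real.rpow_natCast]
      congr 1
      push_cast
      ring
    rw [e1]
    calc ((2 : ℝ) ^ ((pL n : ℝ) / 2)) ^ (8 * ((C0 : ℝ) + 2) * n * ((pl n : ℝ) / 2) ^ 2)
        ≤ (n : ℝ) ^ (8 * ((C0 : ℝ) + 2) * n * ((pl n : ℝ) / 2) ^ 2) :=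
          Real.rpow_le_rpow (by positivity) hn2 (by positivity)
      _ ≤ _ := by
          refine Real.rpow_le_rpow_of_exponent_le ?_ ?_
          · exact le_trans (Real.one_le_rpow (by norm_num) (by positivity)) hn2
          · exact mul_le_mul_of_nonneg_left hq (by positivity)
  have h3 : 2 ^ ((C0 + 2) * (pL n * pl n ^ 2) * n) ≤ HER47.cn C n := by exact_mod_cast h2
  set X : ℕ := pL n * pl n ^ 2 with hX
  have hX1 : 1 ≤ X := by
    rw [hX]
    have : 0 < pL n * pl n ^ 2 := by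
      have a1 : 0 < pL n := by omega
      have a2 : 0 < pl n := by omega
      positivity
    omega
  have h6 : 2 ^ ((C0 + 1) * X * n) * 2 ^ (X * n) ≤ 2 ^ ((C0 + 1) * X * n) * D := by
    calc 2 ^ ((C0 + 1) * X * n) * 2 ^ (X * n) = 2 ^ ((C0 + 2) * X * n) := by
          rw [← pow_add]; congr 1; ring
      _ ≤ HER47.cn C n := h3
      _ ≤ _ := h1
      _ = _ := mul_comm _ _
  have h7 : 2 ^ (X * n) ≤ D := Nat.le_of_mul_le_mul_left h6 (by positivity)
  have h8 : n < 2 ^ n := Nat.lt_two_pow_self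
  have h9 : 2 ^ n ≤ 2 ^ (X * n) :=
    Nat.pow_le_pow_right (by norm_num) (Nat.le_mul_of_pos_left _ hX1)
  omega

end Pool.Agent.NRM
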