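import Pool.Agent.NRM.Targets

/-!
# NRM-LPP: classes with few good vertices
-/

set_option autoImplicit false

open Finset Classical

namespace Pool.Agent.NRM

open Pool.Agent Pool.Agent.Lib.Recon Pool.Agent.RNB Pool.Agent.NRC

variable {V : Type} [Fintype V]

theorem LPP_.mem_cl {G : SimpleGraph V} {B : Finset V} {v y : V} :
    y ∈ cl G B v ↔ y ∉ B ∧ ∀ b ∈ B, (G.Adj b v ↔ G.Adj b y) := by
  unfold cl
  simp

theorem LPP_.cl_eq {G : SimpleGraph V} {B : Finset V} {v y : V} (h : y ∈ cl G B v) :
    cl G B y = cl G B v := by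
  rw [LPP_.mem_cl] at h
  ext x
  rw [LPP_.mem_cl, LPP_.mem_cl]
  constructor
  · rintro ⟨h1, h2⟩
    exact ⟨h1, fun b hb => (h.2 b hb).trans (h2 b hb)⟩
  · rintro ⟨h1, h2⟩
    exact ⟨h1, fun b hb => (h.2 b hb).symm.trans (h2 b hb)⟩

theorem LPP_.self {G : SimpleGraph V} {B : Finset V} {v : V} (hv : v ∉ B) : v ∈ cl G B v := by
  rw [LPP_.mem_cl]
  exact ⟨hv, fun _ _ => Iff.rfl⟩

omit [Fintype V] in
/-- counting along the fibres of a map -/
theorem LPP_.fib {β : Type} (c : V → β) (S D : Finset V)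
    (h : ∀ y ∈ S, (S.filter (fun x => c x = c y)).card ≤ (D.filter (fun x => c x = c y)).card) :
    S.card ≤ D.card := by
  calc S.card = ∑ b ∈ S.image c, (S.filter (fun x => c x = b)).card :=
        Finset.card_eq_sum_card_image c S
    _ ≤ ∑ b ∈ S.image c, (D.filter (fun x => c x = b)).card := by
        refine Finset.sum_le_sum fun b hb => ?_
        obtain ⟨y, hy, rfl⟩ := Finset.mem_image.1 hb
        exact h y hy
    _ = (D.filter (fun x => c x ∈ S.image c)).card :=
        Finset.sum_card_fiberwise_eq_card_filter _ _ _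
    _ ≤ D.card := Finset.card_filter_le _ _

theorem p_LPP : T_LPP := by
  intro V _ G g q h d A Y
  obtain ⟨D, hD⟩ : ∃ D : Finset V, D = LA G g q A \ P0 G g q h d A Y := ⟨_, rfl⟩
  have hLL : ∀ y ∈ P0 G g q h d A Y, y ∈ LA G g q A := by
    intro y hy
    unfold P0 LL at hy
    rw [mem_sdiff, mem_filter] at hy
    exact hy.1.1
  have h1 : D.card ≤ ((LA G g q A).filter (fun y => h < (IN G (2 * g) A y).card)).card +
      ((LA G g q A \ Y).filter (fun y => 2 * (IN G (2 * g) A y).card < d)).card + Y.card := by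
    have hsub : D ⊆ (LA G g q A).filter (fun y => h < (IN G (2 * g) A y).card) ∪
        (LA G g q A \ Y).filter (fun y => 2 * (IN G (2 * g) A y).card < d) ∪ Y := by
      intro y hy
      rw [hD, mem_sdiff] at hy
      obtain ⟨hy1, hy2⟩ := hy
      rw [mem_union, mem_union, mem_filter, mem_filter, mem_sdiff]
      by_contra hc
      apply hy2
      unfold P0 LL
      rw [mem_sdiff, mem_filter]
      have hY : y ∉ Y := fun hh => hc (Or.inr hh)
      refine ⟨⟨hy1, ?_, ?_⟩, hY⟩
      · by_contra h3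
        exact hc (Or.inl (Or.inl ⟨hy1, by omega⟩))
      · by_contra h3
        exact hc (Or.inl (Or.inr ⟨⟨hy1, hY⟩, by omega⟩))
    refine (card_le_card hsub).trans ((card_union_le _ _).trans ?_)
    exact Nat.add_le_add_right (card_union_le _ _) _
  have h2 : (P0 G g q h d A Y \ PP G g q h d A Y).card ≤ D.card := by
    refine LPP_.fib (fun y => cl G (A ∪ EE G g A) y) _ _ ?_
    intro y hy
    rw [mem_sdiff] at hy
    obtain ⟨hy1, hy2⟩ := hy
    have hyLA := hLL y hy1
    have hy3 : 2 * (cl G (A ∪ EE G g A) y ∩ P0 G g q h d A Y).card <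
        (cl G (A ∪ EE G g A) y).card := by
      by_contra hc
      apply hy2
      unfold PP
      rw [mem_filter]
      exact ⟨hy1, by omega⟩
    have hyq : q < (cl G (A ∪ EE G g A) y).card := by
      unfold LA at hyLA
      rw [mem_filter] at hyLA
      exact hyLA.2.2
    have e1 : ((P0 G g q h d A Y \ PP G g q h d A Y).filter
        (fun x => cl G (A ∪ EE G g A) x = cl G (A ∪ EE G g A) y)).card ≤
        (cl G (A ∪ EE G g A) y ∩ P0 G g q h d A Y).card := by
      refine card_le_card fun x hx => ?_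
      rw [mem_filter, mem_sdiff] at hx
      rw [mem_inter]
      refine ⟨?_, hx.1.1⟩
      rw [← hx.2]
      have hxLA := hLL x hx.1.1
      unfold LA at hxLA
      rw [mem_filter] at hxLA
      exact LPP_.self hxLA.2.1
    have e2 : (cl G (A ∪ EE G g A) y \ P0 G g q h d A Y).card ≤
        (D.filter (fun x => cl G (A ∪ EE G g A) x = cl G (A ∪ EE G g A) y)).card := by
      refine card_le_card fun x hx => ?_
      rw [mem_sdiff] at hx
      have hc := LPP_.cl_eq hx.1
      rw [mem_filter, hD, mem_sdiff]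
      refine ⟨⟨?_, hx.2⟩, hc⟩
      unfold LA
      rw [mem_filter]
      exact ⟨mem_univ _, (LPP_.mem_cl.1 hx.1).1, by rw [hc]; exact hyq⟩
    have e3 := card_sdiff_add_card_inter (cl G (A ∪ EE G g A) y) (P0 G g q h d A Y)
    have key : ((P0 G g q h d A Y \ PP G g q h d A Y).filter
        (fun x => cl G (A ∪ EE G g A) x = cl G (A ∪ EE G g A) y)).card ≤
        (D.filter (fun x => cl G (A ∪ EE G g A) x = cl G (A ∪ EE G g A) y)).card := by
      omega
    convert key
  have h3 : (LA G g q A \ PP G g q h d A Y).card ≤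
      D.card + (P0 G g q h d A Y \ PP G g q h d A Y).card := by
    refine (card_le_card ?_).trans (card_union_le _ _)
    intro y hy
    rw [mem_sdiff] at hy
    rw [mem_union, hD, mem_sdiff, mem_sdiff]
    by_cases hP : y ∈ P0 G g q h d A Y
    · exact Or.inr ⟨hP, hy.2⟩
    · exact Or.inl ⟨hy.1, hP⟩
  omega

end Pool.Agent.NRM
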