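import Pool.Agent.NRM.Targets

set_option autoImplicit false

/-!
# NRM, MAX: a maximal set of pairwise distinguished vertices
-/

open Finset Classical

namespace Pool.Agent.NRM

open Pool.Agent Pool.Agent.Lib.Recon Pool.Agent.RNB Pool.Agent.NRC

namespace MAX_

variable {V : Type} [Fintype V]

/-- the elements of `M` are pairwise distinguished by at least `K` vertices -/
def Sep (G : SimpleGraph V) (K : ℕ) (M : Finset V) : Prop :=
  ∀ u ∈ M, ∀ v ∈ M, u ≠ v → K ≤ (dset G u v).card

theorem mem_dset' {G : SimpleGraph V} {u v w : V} :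
    w ∈ dset G u v ↔ w ≠ u ∧ w ≠ v ∧ ¬ (G.Adj w u ↔ G.Adj w v) := by
  unfold dset
  rw [Finset.mem_filter]
  exact ⟨fun h => h.2, fun h => ⟨Finset.mem_univ _, h⟩⟩

theorem ds_eq (G : SimpleGraph V) (u v : V) : HER47.ds G u v = dset G u v := by
  ext w
  rw [HER47.Base_.mem_ds, mem_dset']

theorem ds_comm (G : SimpleGraph V) (u v : V) : HER47.ds G u v = dset G v u := by
  ext w
  rw [HER47.Base_.mem_ds, mem_dset']
  constructor
  · rintro ⟨h1, h2, h3⟩
    exact ⟨h2, h1, fun h => h3 h.symm⟩
  · rintro ⟨h1, h2, h3⟩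
    exact ⟨h2, h1, fun h => h3 h.symm⟩

end MAX_

open MAX_ in
theorem p_MAX : T_MAX := by
  intro V _ G K
  have hne : (univ.filter (fun M : Finset V => Sep G K M)).Nonempty :=
    ⟨∅, Finset.mem_filter.2 ⟨Finset.mem_univ _, fun u hu => absurd hu (Finset.notMem_empty u)⟩⟩
  obtain ⟨M, hM, hmax⟩ := Finset.exists_max_image _ Finset.card hne
  have hS : Sep G K M := (Finset.mem_filter.1 hM).2
  refine ⟨M, ?_, ?_⟩
  · intro v hv
    by_contra hcon
    push Not at hcon
    have hI : Sep G K (insert v M) := by
      intro a ha b hb hab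
      rcases Finset.mem_insert.1 ha with rfl | ha'
      · rcases Finset.mem_insert.1 hb with rfl | hb'
        · exact absurd rfl hab
        · rw [← ds_eq]
          exact hcon b hb'
      · rcases Finset.mem_insert.1 hb with rfl | hb'
        · rw [← ds_comm]
          exact hcon a ha'
        · exact hS a ha' b hb' hab
    have h1 := hmax (insert v M) (Finset.mem_filter.2 ⟨Finset.mem_univ _, hI⟩)
    rw [Finset.card_insert_of_notMem hv] at h1
    omega
  · intro u v hu hv huv
    rw [Finset.mem_compl, not_not] at hu hv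
    exact hS u hu v hv huv

end Pool.Agent.NRM
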