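import Pool.Agent.NRM.Targets
import Pool.Agent.NRC.P_GDW

/-!
# NRM, MGD: codes for many vertices
-/

set_option autoImplicit false

open Finset Classical

namespace Pool.Agent.NRM

open Pool.Agent Pool.Agent.Lib.Recon Pool.Agent.RNB Pool.Agent.NRC

namespace MGD_

open Pool.Agent.NRC.GDW_

variable {V : Type} [Fintype V]

theorem sz_card {G : SimpleGraph V} {A Z : Finset V} {z y : V} :
    (sz G A Z z y).card ≤ (cl G (insert z A) y).card :=
  card_le_card sdiff_subset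

theorem side_le {G : SimpleGraph V} {g : ℕ} {A Z : Finset V} (hN : Nice G g A Z) {z y : V}
    (hz : z ∉ A) (hy : y ∉ A) (hyz : y ≠ z) (h : (sz G A Z z y).card ≤ g) :
    (cl G (insert z A) y).card ≤ 2 * g := by
  by_contra h1
  have h2 := hN z y hz hy hyz (not_le.1 h1)
  omega

/-- the arrows outside `Z` into a vertex of `LA` -/
theorem arrow {G : SimpleGraph V} {g q : ℕ} {A Z : Finset V} (h_SML : NRC.T_SML)
    (hq : 3 * g + 1 ≤ q) (hN : Nice G g A Z) {a z : V} (ha : a ∈ LA G g q A)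
    (hzE : z ∉ EE G g A) (hzA : z ∉ A) (hza : z ≠ a) :
    (sz G A Z z a).card ≤ g ↔ z ∈ IN G (2 * g) A a := by
  have haL := mem_LA.1 ha
  have haA : a ∉ A := fun h => haL.1 (mem_union_left _ h)
  constructor
  · intro h
    exact mem_IN.2 ⟨hzA, hza, side_le hN hzA haA (Ne.symm hza) h⟩
  · intro h
    exact sz_card.trans (h_SML V G g q A hq a ha z h hzE)

/-- the arrows outside `Z` inside a closed set -/
theorem key (h_SML : NRC.T_SML) {G : SimpleGraph V} {g q : ℕ} {A Z W : Finset V}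
    (hq : 3 * g + 1 ≤ q) (hN : Nice G g A Z) (hWL : W ⊆ LA G g q A)
    (hcl : ∀ y ∈ W, IN G (2 * g) A y ⊆ W) {a : V} (ha : a ∈ W) (haZ : a ∉ Z) (z : V) :
    Ars G g A Z a z ↔ z ∉ Z ∧ z ∈ IN G (2 * g) A a := by
  have haL := mem_LA.1 (hWL ha)
  have haA : a ∉ A := fun h => haL.1 (mem_union_left _ h)
  constructor
  · rintro ⟨h1, -, h2, -, h3, h4⟩
    exact ⟨h2, mem_IN.2 ⟨h1, h3, side_le hN h1 haA (Ne.symm h3) h4⟩⟩
  · rintro ⟨h1, h2⟩
    obtain ⟨h3, h4, -⟩ := mem_IN.1 h2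
    have hzL := mem_LA.1 (hWL (hcl a ha h2))
    have hzE : z ∉ EE G g A := fun h => hzL.1 (mem_union_right _ h)
    exact ⟨h3, haA, h1, haZ, h4, (arrow h_SML hq hN (hWL ha) hzE h3 h4).2 h2⟩

/-- the vertices from which `w` can be reached -/
theorem br_eq (h_SML : NRC.T_SML) {G : SimpleGraph V} {g q : ℕ} {A Z W : Finset V}
    (hq : 3 * g + 1 ≤ q) (hN : Nice G g A Z) (hWL : W ⊆ LA G g q A)
    (hcl : ∀ y ∈ W, IN G (2 * g) A y ⊆ W) {v w : V} (hWZ : ∀ y ∈ W, (y ∈ Z ↔ y = v))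
    (hw : w ∈ W) (hwv : w ≠ v)
    (hreach : ∀ y ∈ W, y ≠ v →
      Relation.ReflTransGen (fun a b => b ∈ W ∧ b ≠ v ∧ b ∈ IN G (2 * g) A a) w y) :
    BRs G g A Z w = W.erase v := by
  ext y
  unfold BRs
  rw [mem_filter, mem_erase]
  constructor
  · rintro ⟨-, h⟩
    induction h with
    | refl => exact ⟨hwv, hw⟩
    | tail _ hbc ih =>
      have h2 := (key h_SML hq hN hWL hcl ih.2 (fun h => ih.1 ((hWZ _ ih.2).1 h)) _).1 hbc
      have h3 := hcl _ ih.2 h2.2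
      exact ⟨fun h => h2.1 ((hWZ _ h3).2 h), h3⟩
  · rintro ⟨h1, h2⟩
    refine ⟨mem_univ _, ?_⟩
    have h3 : ∀ y, Relation.ReflTransGen (fun a b => b ∈ W ∧ b ≠ v ∧ b ∈ IN G (2 * g) A a) w y →
        (y ∈ W ∧ y ≠ v) ∧ Relation.ReflTransGen (Ars G g A Z) w y := by
      intro y hy
      induction hy with
      | refl => exact ⟨⟨hw, hwv⟩, Relation.ReflTransGen.refl⟩
      | tail _ hbc ih =>
        exact ⟨⟨hbc.1, hbc.2.1⟩, ih.2.tail
          ((key h_SML hq hN hWL hcl ih.1.1 (fun h => ih.1.2 ((hWZ _ ih.1.1).1 h)) _).2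
            ⟨fun h => hbc.2.1 ((hWZ _ hbc.1).1 h), hbc.2.2⟩)⟩
    exact (h3 y (hreach y h2 h1)).2

/-- an element of a large class on the other side, with a large side -/
theorem other {G : SimpleGraph V} {g q : ℕ} {A : Finset V} (hq : 4 * g + 2 ≤ q) {v u a : V}
    (hv : v ∈ LA G g q A) (hu : u ∈ cl G (A ∪ EE G g A) v)
    (hs : (cl G (insert a A) u).card ≤ 2 * g) :
    ∃ y ∈ cl G (A ∪ EE G g A) v, a ≠ y ∧ ¬ (G.Adj a y ↔ G.Adj a u) ∧
      a ∉ IN G (2 * g) A y := by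
  have hvL := mem_LA.1 hv
  have hu' := mem_cl'.1 hu
  obtain ⟨O, hO⟩ : ∃ O : Finset V, ∀ y, y ∈ O ↔ y ∈ cl G (A ∪ EE G g A) v ∧ a ≠ y ∧
      ¬ (G.Adj a y ↔ G.Adj a u) :=
    ⟨(cl G (A ∪ EE G g A) v).filter (fun y => a ≠ y ∧ ¬ (G.Adj a y ↔ G.Adj a u)),
      fun y => mem_filter⟩
  have hcov : cl G (A ∪ EE G g A) v ⊆ (cl G (insert a A) u ∪ {a}) ∪ O := by
    intro y hy
    rw [mem_union, mem_union, mem_singleton]
    by_cases h1 : y = a
    · exact Or.inl (Or.inr h1)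
    by_cases h2 : (G.Adj a y ↔ G.Adj a u)
    · refine Or.inl (Or.inl ?_)
      have hy' := mem_cl'.1 hy
      refine mem_cl'.2 ⟨fun h => ?_, fun b hb => ?_⟩
      · rcases mem_insert.1 h with h | h
        · exact h1 h
        · exact hy'.1 (mem_union_left _ h)
      · rcases mem_insert.1 hb with rfl | hb
        · exact h2.symm
        · exact (hu'.2 b (mem_union_left _ hb)).symm.trans (hy'.2 b (mem_union_left _ hb))
    · exact Or.inr ((hO y).2 ⟨hy, fun h => h1 h.symm, h2⟩)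
  have hOc : 2 * g < O.card := by
    have h1 := card_le_card hcov
    have h2 := card_union_le (cl G (insert a A) u ∪ {a}) O
    have h3 := card_union_le (cl G (insert a A) u) {a}
    rw [card_singleton] at h3
    omega
  obtain ⟨y, hy⟩ : O.Nonempty := card_pos.1 (by omega)
  have hy1 := (hO y).1 hy
  refine ⟨y, hy1.1, hy1.2.1, hy1.2.2, fun h => ?_⟩
  have h1 := (mem_IN.1 h).2.2
  have h2 : O ⊆ cl G (insert a A) y := by
    intro x hx
    have hx1 := (hO x).1 hx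
    have hx' := mem_cl'.1 hx1.1
    have hy' := mem_cl'.1 hy1.1
    refine mem_cl'.2 ⟨fun h => ?_, fun b hb => ?_⟩
    · rcases mem_insert.1 h with h | h
      · exact hx1.2.1 h.symm
      · exact hx'.1 (mem_union_left _ h)
    · rcases mem_insert.1 hb with rfl | hb
      · have h3 := hx1.2.2
        have h4 := hy1.2.2
        tauto
      · exact (hy'.2 b (mem_union_left _ hb)).symm.trans (hx'.2 b (mem_union_left _ hb))
  have h3 := card_le_card h2
  omega

end MGD_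

open MGD_ Pool.Agent.NRC.GDW_ in
theorem p_MGD (h_SML : NRC.T_SML) (h_BET : T_BET) : T_MGD := by
  intro V _ G g q h d M A Y Z hg hq1 hq2 hN hZ
  rcases Z.eq_empty_or_nonempty with rfl | ⟨v0, hv0⟩
  · exact ⟨fun v hv => absurd hv (notMem_empty v), id, id, id, fun _ => true, fun _ => ∅,
      fun v hv => absurd hv (notMem_empty v)⟩
  have : Nonempty V := ⟨v0⟩
  have hq3 : 3 * g + 1 ≤ q := by omega
  have hP0 : ∀ y, y ∈ P0 G g q h d A Y → y ∈ LA G g q A ∧ (IN G (2 * g) A y).card ≤ h := by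
    intro y hy
    unfold P0 LL at hy
    rw [mem_sdiff, mem_filter] at hy
    exact ⟨hy.1.1, hy.1.2.1⟩
  have hZP : ∀ v ∈ Z, v ∈ P0 G g q h d A Y := by
    intro v hv
    have h1 := (hZ v hv).1
    unfold PP at h1
    exact (mem_filter.1 h1).1
  have hZA : ∀ v ∈ Z, v ∉ A := fun v hv h1 =>
    (mem_LA.1 (hP0 v (hZP v hv)).1).1 (mem_union_left _ h1)
  -- the representatives
  obtain ⟨u1, u2, hu1, hu2, hu12⟩ : ∃ u1 u2 : V → V,
      (∀ v ∈ Z, u1 v ∈ cl G (A ∪ EE G g A) v ∧ u1 v ∈ P0 G g q h d A Y ∧ u1 v ∉ Z) ∧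
      (∀ v ∈ Z, u2 v ∈ cl G (A ∪ EE G g A) v ∧ u2 v ∈ P0 G g q h d A Y ∧ u2 v ∉ Z) ∧
      ∀ v ∈ Z, ∀ v' ∈ Z, u2 v' ≠ u1 v := by
    have hch : ∀ C : Finset V, ∃ p : V × V, 1 < ((C ∩ P0 G g q h d A Y) \ Z).card →
        p.1 ∈ (C ∩ P0 G g q h d A Y) \ Z ∧ p.2 ∈ (C ∩ P0 G g q h d A Y) \ Z ∧
          p.1 ≠ p.2 := by
      intro C
      by_cases hC : 1 < ((C ∩ P0 G g q h d A Y) \ Z).card
      · obtain ⟨a, ha, b, hb, hab⟩ := one_lt_card.1 hC
        exact ⟨(a, b), fun _ => ⟨ha, hb, hab⟩⟩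
      · exact ⟨(v0, v0), fun hC' => absurd hC' hC⟩
    choose p hp using hch
    have hpZ : ∀ v ∈ Z, _ := fun v hv => hp (cl G (A ∪ EE G g A) v)
      (lt_of_le_of_lt hg (hZ v hv).2.1)
    refine ⟨fun v => (p (cl G (A ∪ EE G g A) v)).1, fun v => (p (cl G (A ∪ EE G g A) v)).2,
      fun v hv => ?_, fun v hv => ?_, fun v hv v' hv' heq => ?_⟩
    · have h1 := (hpZ v hv).1
      rw [mem_sdiff, mem_inter] at h1
      exact ⟨h1.1.1, h1.1.2, h1.2⟩
    · have h1 := (hpZ v hv).2.1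
      rw [mem_sdiff, mem_inter] at h1
      exact ⟨h1.1.1, h1.1.2, h1.2⟩
    · have h1 := (hpZ v hv).1
      have h2 := (hpZ v' hv').2.1
      rw [mem_sdiff, mem_inter] at h1 h2
      have h3 := mem_cl'.1 h1.1.1
      have h4 := mem_cl'.1 h2.1.1
      have h5 : cl G (A ∪ EE G g A) v' = cl G (A ∪ EE G g A) v := by
        refine cl_congr fun b hb => ?_
        have h6 := h3.2 b hb
        have h7 := h4.2 b hb
        simp only at heq
        rw [heq] at h7
        exact h7.trans h6.symm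
      have h8 := (hpZ v hv).2.2
      simp only at heq
      rw [h5] at heq
      exact h8 heq.symm
  -- the closed sets
  have hatt : ∀ v ∈ Z, ∃ (W : Finset V) (w : V), W ⊆ LA G g q A ∧
      (∀ y ∈ W, IN G (2 * g) A y ⊆ W) ∧ W.card ≤ M ∧ v ∈ W ∧ W ∩ Z = {v} ∧ w ∈ W ∧ w ≠ v ∧
      ∀ y ∈ W, y ≠ v →
        Relation.ReflTransGen (fun a b => b ∈ W ∧ b ≠ v ∧ b ∈ IN G (2 * g) A a) w y := by
    intro v hv
    obtain ⟨-, -, W, h1, h2, h3, h4, h5, w, h6, h7, h8⟩ := hZ v hv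
    exact ⟨W, w, h1, h2, h3, h4, h5, h6, h7, h8⟩
  choose! W w hW1 hW2 hW3 hW4 hW5 hW6 hW7 hW8 using hatt
  have hWZ : ∀ v ∈ Z, ∀ y ∈ W v, (y ∈ Z ↔ y = v) := by
    intro v hv y hy
    constructor
    · intro h1
      have h2 : y ∈ W v ∩ Z := mem_inter.2 ⟨hy, h1⟩
      rw [hW5 v hv] at h2
      exact mem_singleton.1 h2
    · rintro rfl
      exact hv
  have hBR : ∀ v ∈ Z, BRs G g A Z (w v) = (W v).erase v := fun v hv =>
    br_eq h_SML hq3 hN (hW1 v hv) (hW2 v hv) (hWZ v hv) (hW6 v hv) (hW7 v hv) (hW8 v hv)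
  refine ⟨hZA, w, u1, u2, fun v => decide (G.Adj (u1 v) v),
    fun v => ((W v).erase v).filter (fun z => G.Adj z v), fun v hv => ?_⟩
  have hvP := hP0 v (hZP v hv)
  have hvA := hZA v hv
  have huP := hP0 (u1 v) (hu1 v hv).2.1
  have hu' := mem_cl'.1 (hu1 v hv).1
  have huA : u1 v ∉ A := fun h1 => hu'.1 (mem_union_left _ h1)
  refine ⟨fun h1 => hW7 v hv ((hWZ v hv _ (hW6 v hv)).1 h1), (hu1 v hv).2.2, (hu2 v hv).2.2,
    ?_, ?_, ?_, ?_⟩
  · rw [hBR v hv]
    exact (card_le_card (erase_subset _ _)).trans (hW3 v hv)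
  · rw [hBR v hv]
    exact filter_subset _ _
  · intro z hz
    rw [hBR v hv]
    have hzv : z ≠ v := fun h1 => hz (h1 ▸ hv)
    by_cases h1 : z ∈ (W v).erase v
    · rw [if_pos h1, mem_filter]
      exact ⟨fun h => ⟨h1, h⟩, fun h => h.2⟩
    rw [if_neg h1]
    by_cases h2 : z = u1 v
    · rw [if_pos h2, decide_eq_true_iff, h2]
    rw [if_neg h2]
    by_cases h3 : z ∈ A
    · rw [if_pos h3]
      exact hu'.2 z (mem_union_left _ h3)
    rw [if_neg h3]
    have hzW : z ∉ W v := fun h => h1 (mem_erase.2 ⟨hzv, h⟩)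
    have h4 : 2 * g < (cl G (insert z A) v).card := by
      by_contra h
      exact hzW (hW2 v hv v (hW4 v hv) (mem_IN.2 ⟨h3, hzv, not_lt.1 h⟩))
    have huc : u1 v ∈ cl G A v :=
      mem_cl'.2 ⟨huA, fun b hb => hu'.2 b (mem_union_left _ hb)⟩
    by_cases h5 : (sz G A Z z (u1 v)).card ≤ g
    · have h6 : ¬ (G.Adj z (u1 v) ↔ G.Adj z v) := by
        intro h
        have h7 : cl G (insert z A) (u1 v) = cl G (insert z A) v := by
          refine cl_congr fun b hb => ?_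
          rcases mem_insert.1 hb with rfl | hb
          · exact h
          · exact (hu'.2 b (mem_union_left _ hb)).symm
        have h8 := side_le hN h3 huA (fun e => h2 e.symm) h5
        rw [h7] at h8
        omega
      tauto
    · have h6 : G.Adj z v ↔ G.Adj z (u1 v) := by
        by_contra h
        have hzE : z ∈ EE G g A := by
          unfold EE
          rw [mem_filter]
          refine ⟨mem_univ _, h3, v, u1 v, hvA, fun e => hzv e.symm, fun e => h2 e.symm, huc, h,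
            by omega, ?_⟩
          have h8 := sz_card (G := G) (A := A) (Z := Z) (z := z) (y := u1 v)
          omega
        exact h (hu'.2 z (mem_union_right _ hzE))
      tauto
  · intro v' hv' hne
    have hv'P := hP0 v' (hZP v' hv')
    have haP := hP0 (u2 v') (hu2 v' hv').2.1
    have ha' := mem_LA.1 haP.1
    have haA : u2 v' ∉ A := fun h1 => ha'.1 (mem_union_left _ h1)
    have haE : u2 v' ∉ EE G g A := fun h1 => ha'.1 (mem_union_right _ h1)
    have hau : u2 v' ≠ u1 v := hu12 v hv v' hv'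
    have hv'I : v' ∉ IN G (2 * g) A v := by
      intro h1
      exact hne ((hWZ v hv v' (hW2 v hv v (hW4 v hv) h1)).1 hv')
    rw [arrow h_SML hq3 hN huP.1 haE haA hau]
    by_cases h1 : u2 v' ∈ IN G (2 * g) A (u1 v)
    · obtain ⟨y, hy1, hy2, hy3, hy4⟩ := other (by omega) hvP.1 (hu1 v hv).1 (mem_IN.1 h1).2.2
      have h2 := h_BET V G g q h A hq2 v' (u2 v') v y hv'P.1 (hu2 v' hv').1 hvP.1 hy1 hv'P.2
        haP.2 hne hy2 hv'I hy4
      tauto
    · have h2 := h_BET V G g q h A hq2 v' (u2 v') v (u1 v) hv'P.1 (hu2 v' hv').1 hvP.1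
        (hu1 v hv).1 hv'P.2 haP.2 hne hau hv'I h1
      tauto

end Pool.Agent.NRM
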