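import Pool.Agent.NRM.Targets

/-!
# NRM, target NBM: numbers, sizes
-/

set_option autoImplicit false

open Finset Classical

namespace Pool.Agent.NRM

open Pool.Agent Pool.Agent.Lib.Recon Pool.Agent.RNB Pool.Agent.NRC

namespace NBM_

theorem fifty (k : ℕ) (hk : 9 ≤ k) : 50 * (k + 1) ≤ 2 ^ k := by
  induction k, hk using Nat.le_induction with
  | base => norm_num
  | succ k hk ih =>
    rw [pow_succ]
    omega

theorem aux (n L l a e e1 e2 x c y s b t pk' : ℝ) (hL : 1000 ≤ L) (hl : 10 ≤ l) (hlL : 50 * l ≤ L)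
    (h0 : 0 ≤ a) (h1 : 0 ≤ e) (h2 : 0 ≤ e1) (h3 : 0 ≤ e2) (h4 : 0 ≤ x) (h5 : 0 ≤ c) (h6 : 0 ≤ b)
    (h7 : 0 ≤ y) (h8 : 0 ≤ s) (hy : y * (1000 * L ^ 2) ≤ n) (hs : s * (1000 * L ^ 2) ≤ 8 * n)
    (hp : 0 ≤ pk') (ha : a * L ^ 2 ≤ n)
    (he : 4 * L ^ 6 * e ≤ 4 * n * L ^ 3) (he1 : 4 * L ^ 6 * e1 ≤ 4 * n * L ^ 3)
    (he2 : 8 * (4 * L ^ 6) * e2 ≤ n) (hc : 100 * L * c ≤ n) (hx : x * L ^ 2 ≤ n)
    (hb : b ≤ a + e + 2 * (e1 + e2 + y) + y + x + c + s) (ht : t ≤ b + 3 * pk')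
    (hk : pk' * (300 * l) ≤ n) :
    b * L ≤ n / 50 ∧ t * l ≤ n / 90 ∧ 32 * t ≤ n := by
  have hL0 : 0 < L := by linarith
  have hl0 : 0 < l := by linarith
  have hL3 : 0 < L ^ 3 := by positivity
  have key : ∀ y : ℝ, 0 ≤ y → y * L ^ 2 ≤ n → 1000 * (y * L) ≤ n := by
    intro y hy h
    have : 1000 * (y * L) ≤ L * (y * L) := by
      apply mul_le_mul_of_nonneg_right hL
      positivity
    nlinarith
  have hsq : ∀ y : ℝ, 0 ≤ y → y * L ^ 3 ≤ n → y * L ^ 2 ≤ n := by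
    intro y hy h
    have h7 : y * L ^ 2 * 1 ≤ y * L ^ 2 * L := by
      apply mul_le_mul_of_nonneg_left (by linarith)
      positivity
    calc y * L ^ 2 = y * L ^ 2 * 1 := by ring
      _ ≤ y * L ^ 2 * L := h7
      _ = y * L ^ 3 := by ring
      _ ≤ n := h
  have hdiv : ∀ y : ℝ, 4 * L ^ 6 * y ≤ 4 * n * L ^ 3 → y * L ^ 3 ≤ n := by
    intro y h
    have h8 : (y * L ^ 3) * (4 * L ^ 3) ≤ n * (4 * L ^ 3) := by
      calc (y * L ^ 3) * (4 * L ^ 3) = 4 * L ^ 6 * y := by ring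
        _ ≤ 4 * n * L ^ 3 := h
        _ = n * (4 * L ^ 3) := by ring
    exact le_of_mul_le_mul_right h8 (by positivity)
  have ka := key a h0 ha
  have ke := key e h1 (hsq e h1 (hdiv e he))
  have ke1 := key e1 h2 (hsq e1 h2 (hdiv e1 he1))
  have kx := key x h4 hx
  have ke2 : 1000 * (e2 * L) ≤ n := by
    apply key e2 h3
    have h9 : e2 * L ^ 2 * 1 ≤ e2 * L ^ 2 * (32 * L ^ 4) := by
      apply mul_le_mul_of_nonneg_left
      · have : (1 : ℝ) ≤ L ^ 4 := one_le_pow₀ (by linarith)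
        linarith
      · positivity
    calc e2 * L ^ 2 = e2 * L ^ 2 * 1 := by ring
      _ ≤ e2 * L ^ 2 * (32 * L ^ 4) := h9
      _ = 8 * (4 * L ^ 6) * e2 := by ring
      _ ≤ n := he2
  have kc : 100 * (c * L) ≤ n := by linarith
  have ky := key (1000 * y) (by linarith) (by linarith)
  have ks := key (125 * s) (by linarith) (by linarith)
  have hbL : b * L ≤ (a + e + 2 * (e1 + e2 + y) + y + x + c + s) * L :=
    mul_le_mul_of_nonneg_right hb hL0.le
  have n0 : 0 ≤ n := by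
    have : 0 ≤ 100 * (c * L) := by positivity
    linarith
  have c1 : b * L ≤ n / 50 := by
    have h10 : (a + e + 2 * (e1 + e2 + y) + y + x + c + s) * L =
        a * L + e * L + 2 * (e1 * L) + 2 * (e2 * L) + 3 * (y * L) + x * L + c * L + s * L := by
      ring
    rw [h10] at hbL
    linarith
  have c2 : b * l ≤ n / 2500 := by
    have : b * (50 * l) ≤ b * L := mul_le_mul_of_nonneg_left hlL h6
    linarith
  have c3 : b * 1000 ≤ b * L := mul_le_mul_of_nonneg_left hL h6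
  have c4 : pk' * (300 * 10) ≤ pk' * (300 * l) := by
    apply mul_le_mul_of_nonneg_left _ hp
    linarith
  refine ⟨c1, ?_, ?_⟩
  · have h11 : t * l ≤ (b + 3 * pk') * l := mul_le_mul_of_nonneg_right ht hl0.le
    have h12 : (b + 3 * pk') * l = b * l + 3 * (pk' * l) := by ring
    rw [h12] at h11
    have h13 : pk' * (300 * l) = 300 * (pk' * l) := by ring
    rw [h13] at hk
    linarith
  · linarith

end NBM_

open NBM_ in
theorem p_NBM : T_NBM := by
  refine ⟨2 ^ 1000, ?_⟩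
  intro n hn a e e1 e2 x c y s b t ha he he1 he2 hc hx hy hs hb ht
  have hlog : 1000 ≤ Nat.log 2 n := Nat.le_log_of_pow_le (by norm_num) hn
  have hL : 1000 ≤ pL n := by
    unfold pL
    omega
  have hL0 : pL n ≠ 0 := by omega
  have hk : 9 ≤ Nat.log 2 (pL n) := by
    apply Nat.le_log_of_pow_le (by norm_num)
    calc 2 ^ 9 ≤ 1000 := by norm_num
      _ ≤ pL n := hL
  have hl : 10 ≤ pl n := by
    unfold pl
    omega
  have hlL : 50 * pl n ≤ pL n := by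
    have h1 := fifty _ hk
    have h2 : 2 ^ Nat.log 2 (pL n) ≤ pL n := Nat.pow_log_le_self 2 hL0
    unfold pl
    omega
  have ha' : a * pL n ^ 2 ≤ n := by
    calc a * pL n ^ 2 ≤ n / pL n ^ 2 * pL n ^ 2 := Nat.mul_le_mul_right _ ha
      _ ≤ n := Nat.div_mul_le_self _ _
  have hpk : pk n * (300 * pl n) ≤ n := Nat.div_mul_le_self _ _
  have hpK : pK n * (1000 * pL n ^ 2) ≤ n := Nat.div_mul_le_self _ _
  have hy' : y * (1000 * pL n ^ 2) ≤ n := le_trans (Nat.mul_le_mul_right _ hy) hpK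
  have hs' : s * (1000 * pL n ^ 2) ≤ 8 * n := by
    calc s * (1000 * pL n ^ 2) ≤ 8 * pK n * (1000 * pL n ^ 2) := Nat.mul_le_mul_right _ hs
      _ = 8 * (pK n * (1000 * pL n ^ 2)) := by ring
      _ ≤ 8 * n := Nat.mul_le_mul_left _ hpK
  have hpg : (pg n : ℝ) = 4 * (pL n : ℝ) ^ 6 := by
    unfold pg
    push_cast
    ring
  rw [hpg] at he he1
  have he2' : 8 * (4 * (pL n : ℝ) ^ 6) * e2 ≤ n := by
    have h : ((pq n * e2 : ℕ) : ℝ) ≤ (n : ℝ) := by exact_mod_cast he2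
    have h' : ((pq n * e2 : ℕ) : ℝ) = 8 * (4 * (pL n : ℝ) ^ 6) * e2 := by
      unfold pq pg
      push_cast
      ring
    rwa [h'] at h
  have hc' : 100 * (pL n : ℝ) * c ≤ n := by
    have h : ((pM n * c : ℕ) : ℝ) ≤ (n : ℝ) := by exact_mod_cast hc
    have h' : ((pM n * c : ℕ) : ℝ) = 100 * (pL n : ℝ) * c := by
      unfold pM
      push_cast
      ring
    rwa [h'] at h
  have h := aux n (pL n) (pl n) a e e1 e2 x c y s b t (pk n) (by exact_mod_cast hL)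
    (by exact_mod_cast hl) (by exact_mod_cast hlL) (Nat.cast_nonneg _) (Nat.cast_nonneg _)
    (Nat.cast_nonneg _) (Nat.cast_nonneg _) (Nat.cast_nonneg _) (Nat.cast_nonneg _)
    (Nat.cast_nonneg _) (Nat.cast_nonneg _) (Nat.cast_nonneg _) (by exact_mod_cast hy')
    (by exact_mod_cast hs') (Nat.cast_nonneg _) (by exact_mod_cast ha') he he1 he2' hc' hx
    (by exact_mod_cast hb) (by exact_mod_cast ht) (by exact_mod_cast hpk)
  exact ⟨h.1, h.2.1, by exact_mod_cast h.2.2⟩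

end Pool.Agent.NRM
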