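import Pool.Agent.NRM.Targets

set_option autoImplicit false

/-!
# NRM, NIC: a random colouring
-/

open Finset Classical

namespace Pool.Agent.NRM

open Pool.Agent Pool.Agent.Lib.Recon Pool.Agent.RNB Pool.Agent.NRC

namespace NIC_

/-- the functions with the value `c` on `J` -/
noncomputable def fx {V : Type} [Fintype V] (c : Fin 8) (J : Finset V) : Finset (V → Fin 8) :=
  univ.filter fun f => ∀ x ∈ J, f x = c

theorem card_fx {V : Type} [Fintype V] (c : Fin 8) (J : Finset V) :
    (fx c J).card * 8 ^ J.card = 8 ^ Fintype.card V := by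
  have h1 : fx c J = Fintype.piFinset (fun x => if x ∈ J then {c} else univ) := by
    ext f
    unfold fx
    simp only [mem_filter, mem_univ, true_and, Fintype.mem_piFinset]
    constructor
    · intro h x
      by_cases hx : x ∈ J
      · simp [hx, h x hx]
      · simp [hx]
    · intro h x hx
      have := h x
      rw [if_pos hx, mem_singleton] at this
      exact this
  rw [h1, Fintype.card_piFinset]
  have h2 : (8 : ℕ) ^ J.card = ∏ x : V, if x ∈ J then 8 else 1 := by
    rw [Finset.prod_ite_mem, Finset.univ_inter, Finset.prod_const]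
  rw [h2, ← Finset.prod_mul_distrib, ← Finset.card_univ, ← Finset.prod_const]
  refine Finset.prod_congr rfl fun x _ => ?_
  by_cases hx : x ∈ J
  · simp [hx]
  · simp [hx]

/-- the functions with the value `c` on at least `g + 1` elements of `S` -/
noncomputable def bd {V : Type} [Fintype V] (g : ℕ) (S : Finset V) (c : Fin 8) :
    Finset (V → Fin 8) := univ.filter fun f => g + 1 ≤ (S.filter fun x => f x = c).card

theorem card_bd {V : Type} [Fintype V] (g : ℕ) (S : Finset V) (c : Fin 8)
    (hS : S.card = 2 * g + 1) : (bd g S c).card * 2 ^ (g + 2) ≤ 8 ^ Fintype.card V := by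
  have h1 : bd g S c ⊆ (S.powersetCard (g + 1)).biUnion (fx c) := by
    intro f hf
    unfold bd at hf
    rw [mem_filter] at hf
    obtain ⟨J, hJ, hJc⟩ := Finset.exists_subset_card_eq hf.2
    rw [mem_biUnion]
    refine ⟨J, ?_, ?_⟩
    · rw [mem_powersetCard]
      exact ⟨hJ.trans (filter_subset _ _), hJc⟩
    · unfold fx
      rw [mem_filter]
      exact ⟨mem_univ _, fun x hx => (mem_filter.1 (hJ hx)).2⟩
  have h2 : (bd g S c).card * 8 ^ (g + 1) ≤ 2 ^ (2 * g + 1) * 8 ^ Fintype.card V := by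
    calc (bd g S c).card * 8 ^ (g + 1)
        ≤ (∑ J ∈ S.powersetCard (g + 1), (fx c J).card) * 8 ^ (g + 1) :=
          Nat.mul_le_mul_right _ ((card_le_card h1).trans card_biUnion_le)
      _ = ∑ J ∈ S.powersetCard (g + 1), 8 ^ Fintype.card V := by
          rw [sum_mul]
          refine sum_congr rfl fun J hJ => ?_
          rw [mem_powersetCard] at hJ
          rw [← hJ.2]
          exact card_fx c J
      _ = (S.powersetCard (g + 1)).card * 8 ^ Fintype.card V := by
          rw [sum_const, smul_eq_mul]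
      _ ≤ 2 ^ (2 * g + 1) * 8 ^ Fintype.card V := by
          refine Nat.mul_le_mul_right _ ?_
          rw [← hS, ← card_powerset]
          exact card_le_card (fun J hJ => mem_powerset.2 (mem_powersetCard.1 hJ).1)
  have h3 : (8 : ℕ) ^ (g + 1) = 2 ^ (2 * g + 1) * 2 ^ (g + 2) := by
    rw [← pow_add, show (8 : ℕ) = 2 ^ 3 by norm_num, ← pow_mul]
    congr 1
    ring
  rw [h3] at h2
  have h4 : 2 ^ (2 * g + 1) * ((bd g S c).card * 2 ^ (g + 2)) ≤
      2 ^ (2 * g + 1) * 8 ^ Fintype.card V := by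
    calc 2 ^ (2 * g + 1) * ((bd g S c).card * 2 ^ (g + 2))
        = (bd g S c).card * (2 ^ (2 * g + 1) * 2 ^ (g + 2)) := by ring
      _ ≤ _ := h2
  exact Nat.le_of_mul_le_mul_left h4 (by positivity)

/-- some function is good for all sets and colours -/
theorem exists_good {V : Type} [Fintype V] (F : Finset (Finset V)) (g : ℕ)
    (S' : Finset V → Finset V) (hS' : ∀ S ∈ F, (S' S).card = 2 * g + 1)
    (hF : 8 * F.card < 2 ^ (g + 2)) :
    ∃ f : V → Fin 8, ∀ S ∈ F, ∀ c, ((S' S).filter fun x => f x = c).card ≤ g := by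
  by_contra hcon
  push Not at hcon
  have h1 : (univ : Finset (V → Fin 8)) ⊆
      F.biUnion fun S => (univ : Finset (Fin 8)).biUnion fun c => bd g (S' S) c := by
    intro f _
    obtain ⟨S, hS, c, hc⟩ := hcon f
    rw [mem_biUnion]
    refine ⟨S, hS, ?_⟩
    rw [mem_biUnion]
    refine ⟨c, mem_univ _, ?_⟩
    unfold bd
    rw [mem_filter]
    exact ⟨mem_univ _, hc⟩
  have h2 : 8 ^ Fintype.card V ≤ ∑ S ∈ F, ∑ c : Fin 8, (bd g (S' S) c).card := by
    calc 8 ^ Fintype.card V = (univ : Finset (V → Fin 8)).card := by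
          rw [card_univ, Fintype.card_fun, Fintype.card_fin]
      _ ≤ _ := card_le_card h1
      _ ≤ ∑ S ∈ F, ((univ : Finset (Fin 8)).biUnion fun c => bd g (S' S) c).card :=
          card_biUnion_le
      _ ≤ _ := sum_le_sum fun S _ => card_biUnion_le
  have h3 : 8 ^ Fintype.card V * 2 ^ (g + 2) ≤ 8 ^ Fintype.card V * (8 * F.card) := by
    calc 8 ^ Fintype.card V * 2 ^ (g + 2)
        ≤ (∑ S ∈ F, ∑ c : Fin 8, (bd g (S' S) c).card) * 2 ^ (g + 2) :=
          Nat.mul_le_mul_right _ h2
      _ = ∑ S ∈ F, ∑ c : Fin 8, (bd g (S' S) c).card * 2 ^ (g + 2) := by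
          rw [sum_mul]
          refine sum_congr rfl fun S _ => ?_
          rw [sum_mul]
      _ ≤ ∑ S ∈ F, ∑ c : Fin 8, 8 ^ Fintype.card V :=
          sum_le_sum fun S hS => sum_le_sum fun c _ => card_bd g (S' S) c (hS' S hS)
      _ = 8 ^ Fintype.card V * (8 * F.card) := by
          rw [sum_const, sum_const, card_univ, Fintype.card_fin, smul_eq_mul, smul_eq_mul]
          ring
  have h4 : 2 ^ (g + 2) ≤ 8 * F.card := Nat.le_of_mul_le_mul_left h3 (by positivity)
  omega

end NIC_

open NIC_ in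
theorem p_NIC : T_NIC := by
  intro V _ D F g hF hF8
  have hex : ∀ S : Finset V, ∃ S' : Finset V, S ∈ F → S' ⊆ S ∧ S'.card = 2 * g + 1 := by
    intro S
    by_cases hS : S ∈ F
    · obtain ⟨S', h1, h2⟩ := Finset.exists_subset_card_eq (show 2 * g + 1 ≤ S.card from hF S hS)
      exact ⟨S', fun _ => ⟨h1, h2⟩⟩
    · exact ⟨∅, fun h => absurd h hS⟩
  choose S' hS' using hex
  obtain ⟨f, hf⟩ := exists_good F g S' (fun S hS => (hS' S hS).2) hF8
  obtain ⟨c, hc⟩ : ∃ c : Fin 8, D.card ≤ 8 * (D.filter fun x => f x = c).card := by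
    by_contra hcon
    push Not at hcon
    have h1 : D.card = ∑ c : Fin 8, (D.filter fun x => f x = c).card :=
      card_eq_sum_card_fiberwise (f := f) (t := univ) fun x _ => by simp
    have h2 : ∑ c : Fin 8, 8 * (D.filter fun x => f x = c).card < ∑ _c : Fin 8, D.card :=
      sum_lt_sum_of_nonempty ⟨0, mem_univ _⟩ fun c _ => hcon c
    rw [← mul_sum, ← h1, sum_const, card_univ, Fintype.card_fin, smul_eq_mul] at h2
    omega
  refine ⟨D.filter fun x => f x = c, filter_subset _ _, hc, fun S hS => ?_⟩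
  obtain ⟨h1, h2⟩ := hS' S hS
  have h3 := hf S hS c
  have h4 : (S' S \ ((S' S).filter fun x => f x = c)) ⊆ S \ D.filter fun x => f x = c := by
    intro x hx
    rw [mem_sdiff, mem_filter] at hx
    rw [mem_sdiff, mem_filter]
    exact ⟨h1 hx.1, fun h => hx.2 ⟨hx.1, h.2⟩⟩
  have h5 := card_le_card h4
  have h6 := card_sdiff_add_card_eq_card (filter_subset (fun x => f x = c) (S' S))
  omega

end Pool.Agent.NRM
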