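import Pool.Agent.NRM.Targets

/-!
# NRM-ONM: one graph, one net (assembly)
-/

set_option autoImplicit false

open Finset Classical

namespace Pool.Agent.NRM

open Pool.Agent Pool.Agent.Lib.Recon Pool.Agent.RNB Pool.Agent.NRC

namespace ONM_

lemma big (n : ℕ) : 8 * (2 * n ^ 2) < 2 ^ (pg n + 2) := by
  have hL : 1 ≤ pL n := by unfold pL; omega
  have hn : n < 2 ^ pL n := by
    have := Nat.lt_pow_succ_log_self (b := 2) (by norm_num) n
    simpa [pL] using this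
  have h1 : n ^ 2 < (2 ^ pL n) ^ 2 := Nat.pow_lt_pow_left hn (by norm_num)
  have h2 : pL n ≤ pL n ^ 6 := Nat.le_self_pow (by norm_num) _
  have h3 : 2 * pL n + 4 ≤ pg n + 2 := by
    unfold pg
    omega
  calc 8 * (2 * n ^ 2) = 16 * n ^ 2 := by ring
    _ < 16 * (2 ^ pL n) ^ 2 := by omega
    _ = 2 ^ (2 * pL n + 4) := by
        rw [← pow_mul, pow_add, mul_comm (pL n) 2]
        ring
    _ ≤ 2 ^ (pg n + 2) := Nat.pow_le_pow_right (by norm_num) h3

end ONM_

theorem p_ONM (h_STM : T_STM) (h_ZEX : T_ZEX) (h_MGD : T_MGD) (h_RCM : T_RCM) (h_NBM : T_NBM)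
    (h_EMC : NRC.T_EMC) (h_NPA : NRC.T_NPA) (h_NX : NRC.T_NX) (h_NF : NRC.T_NF)
    (h_RMS : NRC.T_RMS) : T_ONM := by
  obtain ⟨n1, h1⟩ := h_NPA
  obtain ⟨n2, h2⟩ := h_NX
  obtain ⟨n3, h3⟩ := h_NBM
  obtain ⟨n4, h4⟩ := h_NF
  refine ⟨n1 + n2 + n3 + n4 + 3, fun V _ G hn hrec Y hY hfar A hA hs => ?_⟩
  obtain ⟨-, -, hN3, hN4, hN5, hN6⟩ := h1 (Fintype.card V) (by omega)
  by_cases hSC : 8 * pK (Fintype.card V) ≤ (SC G (pg (Fintype.card V)) (pM (Fintype.card V)) A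
      (PP G (pg (Fintype.card V)) (pq (Fintype.card V)) (pg (Fintype.card V))
        (pd (Fintype.card V)) A Y)).card
  · obtain ⟨Z, hZ, hnice, hatt⟩ := h_ZEX V G (pg (Fintype.card V)) (pq (Fintype.card V))
      (pg (Fintype.card V)) (pd (Fintype.card V)) (pM (Fintype.card V)) (pK (Fintype.card V)) A Y
      hN5 hN4 hN6 (ONM_.big _) hSC
    exact ⟨Z, hZ, h_MGD V G (pg (Fintype.card V)) (pq (Fintype.card V)) (pg (Fintype.card V))
      (pd (Fintype.card V)) (pM (Fintype.card V)) A Y Z hN5 hN4 (by omega) hnice hatt⟩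
  · exfalso
    apply hrec
    obtain ⟨B, T, e, e1, e2, x, c, hD, hB, hT, hBc, he, he1, he2, hc', hx⟩ :=
      h_STM V G (pg (Fintype.card V)) (pq (Fintype.card V)) (pg (Fintype.card V))
        (pd (Fintype.card V)) (pM (Fintype.card V)) (pk (Fintype.card V)) A Y (by omega) hN5 hN4
        hN6 hN3 hfar
    have hxx : (x : ℝ) * (pL (Fintype.card V) : ℝ) ^ 2 ≤ (Fintype.card V : ℝ) :=
      (mul_le_mul_of_nonneg_right hx (by positivity)).trans (h2 (Fintype.card V) (by omega))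
    have hec : (pg (Fintype.card V) : ℝ) * e ≤
        4 * (Fintype.card V : ℝ) * (pL (Fintype.card V) : ℝ) ^ 3 := by
      have h5 : ((pg (Fintype.card V) * e : ℕ) : ℝ) ≤ (sm G A : ℝ) := Nat.cast_le.2 he
      rw [Nat.cast_mul] at h5
      exact h5.trans hs
    have hec1 : (pg (Fintype.card V) : ℝ) * e1 ≤
        4 * (Fintype.card V : ℝ) * (pL (Fintype.card V) : ℝ) ^ 3 := by
      have h5 : ((pg (Fintype.card V) * e1 : ℕ) : ℝ) ≤ (sm G A : ℝ) := Nat.cast_le.2 he1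
      rw [Nat.cast_mul] at h5
      exact h5.trans hs
    obtain ⟨hb, ht, ht32⟩ := h3 (Fintype.card V) (by omega) A.card e e1 e2 x c Y.card _ B.card
      T.card hA hec hec1 he2 hc' hxx hY (not_le.1 hSC).le hBc hT
    have hF := h4 (Fintype.card V) (by omega) B.card T.card hb ht ht32
    have hq : 1 ≤ pq (Fintype.card V) := by omega
    have hE := h_EMC V G (pq (Fintype.card V)) B T hq hB
    refine h_RCM V G (by omega) fun H hc => ?_
    refine h_RMS V G H T hc hD (lt_of_le_of_lt ?_ hF)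
    exact Nat.pow_le_pow_left (Nat.mul_le_mul_left 2 hE) 2

end Pool.Agent.NRM
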