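import Pool.Agent.NRM.Targets
import Pool.Agent.Lib.Recon.CliquePoset

/-!
# NRM-RCM: `Rec` from isomorphic cards
-/

set_option autoImplicit false

open Finset Classical

namespace Pool.Agent.NRM

open Pool.Agent Pool.Agent.Lib.Recon Pool.Agent.RNB Pool.Agent.NRC

theorem p_RCM : T_RCM := by
  intro V _ G _ hG W _ H f hdeck
  have h1 : ∀ v, CardIso G (H.comap f) v v := by
    intro v
    obtain ⟨e⟩ := hdeck v
    obtain ⟨σ, h1, h2⟩ := cardIso_of_orderIso G H f v e
    refine ⟨σ.trans f.symm, by rw [Equiv.trans_apply, h1, Equiv.symm_apply_apply], ?_⟩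
    intro x y hx hy
    rw [h2 x y hx hy]
    simp
  obtain ⟨α, hα⟩ := hG (H.comap f) h1
  apply orderIso_of_iso
  refine ⟨α.trans f, fun x y => ?_⟩
  have h2 := hα x y
  simp only [SimpleGraph.comap_adj] at h2
  exact h2

end Pool.Agent.NRM
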