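import Pool.Agent.NRM.Targets
import Pool.Agent.NRC.P_SEL

/-!
# NRM: SEM, choice of a random set
-/

set_option autoImplicit false

open Finset Classical

namespace Pool.Agent.NRM

open Pool.Agent Pool.Agent.Lib.Recon Pool.Agent.RNB Pool.Agent.NRC

/-- SEM. -/
theorem p_SEM : T_SEM := by
  intro V _ G g q h d k A Y hn hdn hds
  have hn0 : 0 < Fintype.card V := hn
  have hnR : (0 : ℝ) < Fintype.card V := by exact_mod_cast hn0
  set J : Finset V := P0 G g q h d A Y with hJ
  set J' : Finset (V × V) := univ.filter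
    (fun p : V × V => p.1 ∉ Y ∧ p.2 ∉ Y ∧ Pr G g q h d A p.1 p.2) with hJ'
  have h1 : ∀ y ∈ J, ((d : ℝ) / 2) ≤ ((IN G (2 * g) A y).card : ℝ) := by
    intro y hy
    rw [hJ] at hy
    unfold P0 at hy
    rw [mem_sdiff] at hy
    have hy1 := hy.1
    unfold LL at hy1
    rw [mem_filter] at hy1
    have h2 : (d : ℝ) ≤ 2 * ((IN G (2 * g) A y).card : ℝ) := by exact_mod_cast hy1.2.2
    linarith
  have h2 : ∀ p ∈ J', ((d : ℝ) / 2) ≤ ((dset G p.1 p.2).card : ℝ) := by
    intro p hp
    rw [hJ', mem_filter] at hp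
    have h3 : (d : ℝ) ≤ ((dset G p.1 p.2).card : ℝ) := by
      exact_mod_cast hds p.1 p.2 hp.2.1 hp.2.2.1 hp.2.2.2.1
    have h4 : (0 : ℝ) ≤ d := Nat.cast_nonneg _
    linarith
  obtain ⟨a, ha⟩ := exists_seq k J (fun y => IN G (2 * g) A y) ((d : ℝ) / 2) h1
    J' (fun p => dset G p.1 p.2) ((d : ℝ) / 2) h2 hn0
  refine ⟨univ.image a, (J.filter (fun y => ∀ j, a j ∉ IN G (2 * g) A y)) ∪
    ((J'.filter (fun p => ∀ j, a j ∉ dset G p.1 p.2)).image Prod.fst), ?_, ?_, ?_, ?_⟩
  · exact card_image_le.trans (by simp)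
  · have h3 : (d : ℝ) / 2 / Fintype.card V = (d : ℝ) / (2 * Fintype.card V) := by
      rw [div_div]
    rw [h3] at ha
    have h4 : (0 : ℝ) ≤ 1 - (d : ℝ) / (2 * Fintype.card V) := by
      have h5 : (d : ℝ) ≤ Fintype.card V := by exact_mod_cast hdn
      have h6 : (d : ℝ) / (2 * Fintype.card V) ≤ 1 := by
        rw [div_le_one (by positivity)]
        linarith
      linarith
    have h5 : (0 : ℝ) ≤ (1 - (d : ℝ) / (2 * Fintype.card V)) ^ k := pow_nonneg h4 k
    have h6 : (J.card : ℝ) ≤ Fintype.card V := by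
      exact_mod_cast card_le_univ _
    have h7 : (J'.card : ℝ) ≤ Fintype.card V * (q + h * (2 * g)) := by
      have h8 : J'.card ≤ Fintype.card V * (q + h * (2 * g)) := by
        refine le_trans (card_le_card ?_) (SEL_.cnt G g q h d A)
        intro p hp
        rw [hJ', mem_filter] at hp
        rw [mem_filter]
        exact ⟨mem_univ _, hp.2.2.2⟩
      exact_mod_cast h8
    refine le_trans ?_ (ha.trans ?_)
    · rw [← Nat.cast_add]
      refine Nat.cast_le.mpr ?_
      exact (card_union_le _ _).trans (add_le_add le_rfl card_image_le)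
    · rw [← add_mul]
      refine mul_le_mul_of_nonneg_right ?_ h5
      nlinarith
  · intro y hy hyX
    by_contra hc
    push Not at hc
    apply hyX
    rw [mem_union]
    left
    rw [mem_filter]
    exact ⟨hy, fun j => hc (a j) (mem_image_of_mem a (mem_univ j))⟩
  · intro u v huX huY hvY hp
    by_contra hc
    push Not at hc
    apply huX
    rw [mem_union]
    right
    rw [mem_image]
    refine ⟨(u, v), ?_, rfl⟩
    rw [mem_filter, hJ', mem_filter]
    exact ⟨⟨mem_univ _, huY, hvY, hp⟩, fun j => hc (a j) (mem_image_of_mem a (mem_univ j))⟩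

end Pool.Agent.NRM
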