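import Pool.Agent.NRM.Targets

/-!
# NRM-STM: the dichotomy, several vertices (edit of NRC/P_STR.lean)
-/

set_option autoImplicit false

open Finset Classical

namespace Pool.Agent.NRM

open Pool.Agent Pool.Agent.Lib.Recon Pool.Agent.RNB Pool.Agent.NRC

theorem STM_.reps {V : Type} [Fintype V] (F : Finset (Finset V)) :
    ∃ Q : Finset V, Q.card ≤ F.card ∧ ∀ W ∈ F, W.Nonempty → ∃ r ∈ Q, r ∈ W := by
  refine ⟨F.biUnion (fun W => if h : W.Nonempty then {h.choose} else ∅), ?_, ?_⟩
  · have h1 := card_biUnion_le_card_mul F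
      (fun W : Finset V => if h : W.Nonempty then ({h.choose} : Finset V) else ∅) 1
      (by
        intro W _
        by_cases h : W.Nonempty
        · simp [h]
        · simp [h])
    simpa using h1
  · intro W hW hne
    refine ⟨hne.choose, ?_, hne.choose_spec⟩
    rw [mem_biUnion]
    refine ⟨W, hW, ?_⟩
    rw [dif_pos hne]
    exact mem_singleton_self _

theorem p_STM (h_ESM : NRC.T_ESM) (h_EHI : NRC.T_EHI) (h_ELM : T_ELM) (h_SYM : NRC.T_SYM)
    (h_SEM : T_SEM) (h_DIM : T_DIM) (h_CON : NRC.T_CON) (h_ROO : NRC.T_ROO)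
    (h_BTB : NRC.T_BTB) (h_LPP : T_LPP) : T_STM := by
  intro V _ G g q h d M k A Y hV hg hq hd hdV hfar
  obtain ⟨R, X, hRk, hXc, hR, hPr⟩ := h_SEM V G g q h d k A Y hV hdV hfar
  have hPP0 : ∀ y ∈ PP G g q h d A Y, y ∈ P0 G g q h d A Y := by
    intro y hy
    unfold PP at hy
    rw [mem_filter] at hy
    exact hy.1
  have hLL : ∀ y ∈ PP G g q h d A Y, y ∈ LA G g q A ∧ (IN G (2 * g) A y).card ≤ h := by
    intro y hy
    have h0 := hPP0 y hy
    unfold P0 at h0
    rw [mem_sdiff] at h0
    have h1 := h0.1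
    unfold LL at h1
    rw [mem_filter] at h1
    exact ⟨h1.1, h1.2.1⟩
  have hsym : ∀ y ∈ PP G g q h d A Y, ∀ z ∈ PP G g q h d A Y, z ∈ IN G (2 * g) A y →
      y ∈ IN G (2 * g) A z := by
    intro y hy z hz hzy
    exact h_SYM V G g q h A hq y z (hLL y hy).1 (hLL z hz).1 (hLL y hy).2 (hLL z hz).2 hzy
  obtain ⟨Q, hQP, hQc, hQr⟩ := h_ROO V G g M A (PP G g q h d A Y) hsym
  obtain ⟨Q2, hQ2c, hQ2r⟩ := STM_.reps (SC G g M A (PP G g q h d A Y))
  obtain ⟨B, hB⟩ : ∃ B : Finset V, B = A ∪ EE G g A ∪ (LA G g q A \ PP G g q h d A Y) ∪ Y ∪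
      X ∪ Q ∪ Q2 := ⟨_, rfl⟩
  have hAB : A ∪ EE G g A ⊆ B := by
    intro y hy
    rw [hB]
    simp only [mem_union] at hy ⊢
    tauto
  have hLB : LA G g q A \ PP G g q h d A Y ⊆ B := by
    intro y hy
    rw [hB]
    simp only [mem_union]
    tauto
  have hYB : Y ⊆ B := by
    intro y hy
    rw [hB]
    simp only [mem_union]
    tauto
  have hXB : X ⊆ B := by
    intro y hy
    rw [hB]
    simp only [mem_union]
    tauto
  have hQB : Q ⊆ B := by
    intro y hy
    rw [hB]
    simp only [mem_union]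
    tauto
  have hQ2B : Q2 ⊆ B := by
    intro y hy
    rw [hB]
    simp only [mem_union]
    tauto
  obtain ⟨T, hBd, hBT, hRT, hTc⟩ := h_CON V (fun z y => z ∈ IN G (2 * g) A y)
    (fun y => y ∉ A ∪ EE G g A ∧ (cl G (A ∪ EE G g A) y).card ≤ q) B R (PP G g q h d A Y)
    (by
      intro y
      by_cases h1 : y ∈ A ∪ EE G g A
      · exact Or.inl (hAB h1)
      by_cases h2 : (cl G (A ∪ EE G g A) y).card ≤ q
      · exact Or.inr (Or.inl ⟨h1, h2⟩)
      by_cases h3 : y ∈ PP G g q h d A Y
      · exact Or.inr (Or.inr h3)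
      · refine Or.inl (hLB ?_)
        rw [mem_sdiff]
        refine ⟨?_, h3⟩
        unfold LA
        rw [mem_filter]
        exact ⟨mem_univ _, h1, by omega⟩)
    (by
      intro y hy hyB
      exact hR y (hPP0 y hy) (fun h1 => hyB (hXB h1)))
    hsym
    (by
      intro y hy
      by_cases hM : M < (CO G g A (PP G g q h d A Y) y).card
      · obtain ⟨r, hrQ, hr⟩ := hQr y hy hM
        unfold CO at hr
        rw [mem_filter] at hr
        exact ⟨r, hr.2, Or.inl (hQB hrQ)⟩
      · by_cases hc : ∀ a ∈ CO G g A (PP G g q h d A Y) y,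
            IN G (2 * g) A a ⊆ CO G g A (PP G g q h d A Y) y
        · have hmem : CO G g A (PP G g q h d A Y) y ∈ SC G g M A (PP G g q h d A Y) := by
            unfold SC
            rw [mem_image]
            refine ⟨y, ?_, rfl⟩
            rw [mem_filter]
            exact ⟨hy, by omega, hc⟩
          have hne : (CO G g A (PP G g q h d A Y) y).Nonempty := by
            refine ⟨y, ?_⟩
            unfold CO
            rw [mem_filter]
            exact ⟨mem_univ _, Relation.ReflTransGen.refl⟩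
          obtain ⟨r, hrQ, hr⟩ := hQ2r _ hmem hne
          unfold CO at hr
          rw [mem_filter] at hr
          exact ⟨r, hr.2, Or.inl (hQ2B hrQ)⟩
        · simp only [not_forall] at hc
          obtain ⟨a, ha, hs⟩ := hc
          rw [not_subset] at hs
          obtain ⟨s, hs1, hs2⟩ := hs
          unfold CO at ha
          rw [mem_filter] at ha
          refine ⟨a, ha.2, Or.inr ⟨s, ?_, hs1⟩⟩
          intro hsP
          apply hs2
          unfold CO
          rw [mem_filter]
          exact ⟨mem_univ _, ha.2.tail ⟨hsP, hs1⟩⟩)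
  refine ⟨B, T, (EE G g A).card,
    ((LA G g q A).filter (fun y => h < (IN G (2 * g) A y).card)).card,
    ((LA G g q A \ Y).filter (fun y => 2 * (IN G (2 * g) A y).card < d)).card, X.card, Q.card,
    ?_, ?_, ?_, ?_, ?_, ?_, ?_, ?_, ?_⟩
  · exact h_DIM V G g q h d A Y R X T (hAB.trans hBT) (hLB.trans hBT) (hYB.trans hBT)
      (hXB.trans hBT) hRT hR hPr
  · exact h_BTB V G g q A B T (by omega) hAB hBd
  · omega
  · have h1 := h_LPP V G g q h d A Y
    have h2 : B.card ≤ A.card + (EE G g A).card + (LA G g q A \ PP G g q h d A Y).card +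
        Y.card + X.card + Q.card + Q2.card := by
      rw [hB]
      have e0 := card_union_le (A ∪ EE G g A ∪ (LA G g q A \ PP G g q h d A Y) ∪ Y ∪ X ∪ Q) Q2
      have e1 := card_union_le (A ∪ EE G g A ∪ (LA G g q A \ PP G g q h d A Y) ∪ Y ∪ X) Q
      have e2 := card_union_le (A ∪ EE G g A ∪ (LA G g q A \ PP G g q h d A Y) ∪ Y) X
      have e3 := card_union_le (A ∪ EE G g A ∪ (LA G g q A \ PP G g q h d A Y)) Y
      have e4 := card_union_le (A ∪ EE G g A) (LA G g q A \ PP G g q h d A Y)
      have e5 := card_union_le A (EE G g A)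
      omega
    omega
  · exact h_ESM V G g A
  · exact h_EHI V G g q h A (by omega)
  · exact h_ELM V G g q d A Y hfar
  · exact hQc
  · exact hXc

end Pool.Agent.NRM
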