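import Pool.Agent.NRM.Targets
import Pool.Agent.NRM.P_INM

/-!
# NRM, target SUM: all large n
-/

set_option autoImplicit false

open Finset Classical

namespace Pool.Agent.NRM

open Pool.Agent Pool.Agent.Lib.Recon Pool.Agent.RNB Pool.Agent.NRC

namespace SUM_

lemma pow_ge (L : ℕ) (hL : 64 ≤ L) : 4000000 * L ^ 4 ≤ 2 ^ (L - 1) := by
  obtain ⟨j, rfl⟩ := Nat.exists_eq_add_of_le hL
  rw [show 64 + j - 1 = 63 + j by omega]
  induction j with
  | zero => norm_num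
  | succ j ih =>
    have ih := ih (by omega)
    have e : 2 ^ (63 + (j + 1)) = 2 * 2 ^ (63 + j) := by rw [← add_assoc, pow_succ]; ring
    have e2 : (64 + (j + 1)) ^ 4 ≤ 2 * (64 + j) ^ 4 := by
      have h1 : (64 + (j + 1)) ^ 2 * 64 ^ 2 ≤ (64 + j) ^ 2 * 65 ^ 2 := by nlinarith
      have h2 : ((64 + (j + 1)) ^ 2 * 64 ^ 2) ^ 2 ≤ ((64 + j) ^ 2 * 65 ^ 2) ^ 2 :=
        Nat.pow_le_pow_left h1 2
      have h3 : (64 + (j + 1)) ^ 4 * 64 ^ 4 ≤ (64 + j) ^ 4 * 65 ^ 4 := by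
        calc (64 + (j + 1)) ^ 4 * 64 ^ 4 = ((64 + (j + 1)) ^ 2 * 64 ^ 2) ^ 2 := by ring
          _ ≤ _ := h2
          _ = _ := by ring
      have h4 : (64 + j) ^ 4 * 65 ^ 4 ≤ (2 * (64 + j) ^ 4) * 64 ^ 4 := by
        calc (64 + j) ^ 4 * 65 ^ 4 ≤ (64 + j) ^ 4 * (2 * 64 ^ 4) :=
              Nat.mul_le_mul_left _ (by norm_num)
          _ = _ := by ring
      exact Nat.le_of_mul_le_mul_right (h3.trans h4) (by norm_num)
    rw [e]
    calc 4000000 * (64 + (j + 1)) ^ 4 ≤ 4000000 * (2 * (64 + j) ^ 4) :=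
          Nat.mul_le_mul_left _ e2
      _ = 2 * (4000000 * (64 + j) ^ 4) := by ring
      _ ≤ _ := Nat.mul_le_mul_left _ ih

/-- the sizes of `r ≥ pK n` -/
lemma big_r {n r : ℕ} (h : 65 ≤ pl n) (hr : pK n ≤ r) :
    n ≤ r ^ 2 ∧ pL n ≤ 2 * pL r ∧ pl n ≤ pl r + 1 := by
  obtain ⟨h1, h2, h3, h4, h5⟩ := INM_.sizes (show 64 ≤ pl n by omega)
  have hL : 64 ≤ pL n := by
    have h6 : 64 ≤ Nat.log 2 (pL n) := by unfold pl at h; omega
    have h7 : 2 ^ 64 ≤ pL n :=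
      (Nat.pow_le_pow_right (by norm_num) h6).trans (Nat.pow_log_le_self 2 (by omega))
    omega
  have hn : 4000000 * pL n ^ 4 ≤ n := (pow_ge _ hL).trans h2
  have hn0 : 0 < n := lt_of_lt_of_le (by positivity) h2
  have g1 : n ≤ r ^ 2 := by
    have a1 : n ≤ 2000 * pL n ^ 2 * r := h5.trans (Nat.mul_le_mul_left _ hr)
    have a2 : n * n ≤ n * r ^ 2 := by
      calc n * n ≤ (2000 * pL n ^ 2 * r) * (2000 * pL n ^ 2 * r) := Nat.mul_le_mul a1 a1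
        _ = (4000000 * pL n ^ 4) * r ^ 2 := by ring
        _ ≤ n * r ^ 2 := Nat.mul_le_mul_right _ hn
    exact Nat.le_of_mul_le_mul_left a2 hn0
  have g2 : pL n ≤ 2 * pL r := by
    have a1 : 2 ^ (pL n - 1) < 2 ^ (2 * pL r) := by
      calc 2 ^ (pL n - 1) ≤ r ^ 2 := h2.trans g1
        _ < (2 ^ pL r) ^ 2 := Nat.pow_lt_pow_left (INM_.lt_pow r) (by norm_num)
        _ = 2 ^ (2 * pL r) := by rw [← pow_mul, mul_comm]
    have a2 := (Nat.pow_lt_pow_iff_right (by norm_num : 1 < 2)).1 a1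
    omega
  refine ⟨g1, g2, ?_⟩
  have hr0 : pL r ≠ 0 := by unfold pL; omega
  have a3 : Nat.log 2 (pL n) ≤ Nat.log 2 (pL r) + 1 := by
    calc Nat.log 2 (pL n) ≤ Nat.log 2 (pL r * 2) := Nat.log_mono_right (by omega)
      _ = Nat.log 2 (pL r) + 1 := Nat.log_mul_base one_lt_two hr0
  unfold pl
  omega

lemma big (C0 : ℕ) (C : HER47.Cls) {n r : ℕ} (h : 65 ≤ pl n) (hr : pK n ≤ r)
    (hB : Big2 (64 * ((C0 : ℝ) + 1)) C r) :
    2 ^ ((C0 + 1) * (pL n * pl n ^ 2) * r) ≤ HER47.cn C r := by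
  obtain ⟨g1, g2, g3⟩ := big_r h hr
  have hlr : 64 ≤ pl r := by omega
  obtain ⟨s1, s2, -, -, -⟩ := INM_.sizes hlr
  obtain ⟨b1, b2⟩ := INM_.log_ge hlr
  unfold Big2 at hB
  have hr0 : (0 : ℝ) < r := by
    have : 0 < r := lt_of_lt_of_le (by positivity) s2
    exact_mod_cast this
  have c1 : (pL n : ℝ) / 4 ≤ Real.logb 2 r := by
    refine le_trans ?_ b1
    have : (pL n : ℝ) ≤ 2 * pL r := by exact_mod_cast g2
    linarith
  have c2 : (pl n : ℝ) / 4 ≤ Real.logb 2 (Real.logb 2 r) := by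
    refine le_trans ?_ b2
    have d1 : (pl n : ℝ) ≤ pl r + 1 := by exact_mod_cast g3
    have d2 : (64 : ℝ) ≤ pl r := by exact_mod_cast hlr
    linarith
  have hq : ((pl n : ℝ) / 4) ^ 2 ≤ Real.logb 2 (Real.logb 2 r) ^ 2 :=
    pow_le_pow_left₀ (by positivity) c2 2
  have hn2 : (2 : ℝ) ^ ((pL n : ℝ) / 4) ≤ r := by
    rw [← Real.le_logb_iff_rpow_le one_lt_two hr0]
    exact c1
  have h2 : ((2 ^ ((C0 + 1) * (pL n * pl n ^ 2) * r) : ℕ) : ℝ) ≤ (HER47.cn C r : ℝ) := by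
    refine le_trans ?_ hB
    have e1 : ((2 ^ ((C0 + 1) * (pL n * pl n ^ 2) * r) : ℕ) : ℝ) =
        ((2 : ℝ) ^ ((pL n : ℝ) / 4)) ^ (64 * ((C0 : ℝ) + 1) * r * ((pl n : ℝ) / 4) ^ 2) := by
      rw [← Real.rpow_mul (by norm_num)]
      push_cast
      rw [← Real.rpow_natCast]
      congr 1
      push_cast
      ring
    rw [e1]
    calc ((2 : ℝ) ^ ((pL n : ℝ) / 4)) ^ (64 * ((C0 : ℝ) + 1) * r * ((pl n : ℝ) / 4) ^ 2)
        ≤ (r : ℝ) ^ (64 * ((C0 : ℝ) + 1) * r * ((pl n : ℝ) / 4) ^ 2) :=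
          Real.rpow_le_rpow (by positivity) hn2 (by positivity)
      _ ≤ _ := by
          refine Real.rpow_le_rpow_of_exponent_le ?_ ?_
          · exact le_trans (Real.one_le_rpow (by norm_num) (by positivity)) hn2
          · exact mul_le_mul_of_nonneg_left hq (by positivity)
  exact_mod_cast h2

end SUM_

open SUM_ in
theorem p_SUM (h_ALM : T_ALM) : T_SUM := by
  obtain ⟨C0, n₀, hn₀⟩ := h_ALM
  refine ⟨64 * ((C0 : ℝ) + 1), by positivity, ?_⟩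
  intro C hC hsup hbig
  obtain ⟨N, hN⟩ := hbig
  obtain ⟨n1, hn1⟩ := INM_.pl_large 65
  refine ⟨max (max n₀ (N ^ 2)) n1, fun n hn => ?_⟩
  have hn0 : n₀ ≤ n := (le_max_left _ _).trans ((le_max_left _ _).trans hn)
  have hnN : N ^ 2 ≤ n := (le_max_right _ _).trans ((le_max_left _ _).trans hn)
  have h65 : 65 ≤ pl n := hn1 n ((le_max_right _ _).trans hn)
  set X : ℕ := pL n * pl n ^ 2 with hX
  have hterm : ∀ r ∈ Icc (pK n) n, 2 ^ (C0 * pL n * pl n ^ 2 * r) * HER47.cn C (n - r) *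
      2 ^ (X * pK n) ≤ HER47.cn C n := by
    intro r hr
    rw [mem_Icc] at hr
    obtain ⟨g1, -, -⟩ := big_r h65 hr.1
    have h2 : N ≤ r := by
      by_contra hc
      push Not at hc
      have : r ^ 2 < N ^ 2 := Nat.pow_lt_pow_left hc (by norm_num)
      omega
    have h3 := big C0 C h65 hr.1 (hN r h2)
    calc 2 ^ (C0 * pL n * pl n ^ 2 * r) * HER47.cn C (n - r) * 2 ^ (X * pK n)
        ≤ 2 ^ (C0 * pL n * pl n ^ 2 * r) * HER47.cn C (n - r) * 2 ^ (X * r) :=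
          Nat.mul_le_mul_left _ (Nat.pow_le_pow_right (by norm_num)
            (Nat.mul_le_mul_left _ hr.1))
      _ = 2 ^ ((C0 + 1) * X * r) * HER47.cn C (n - r) := by
          rw [show (C0 + 1) * X * r = C0 * pL n * pl n ^ 2 * r + X * r by rw [hX]; ring,
            pow_add]
          ring
      _ ≤ HER47.cn C r * HER47.cn C (n - r) := Nat.mul_le_mul_right _ h3
      _ ≤ HER47.cn C (r + (n - r)) := hsup _ _
      _ = HER47.cn C n := by rw [Nat.add_sub_cancel' hr.2]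
  have hsum : HER47.bn C n * 2 ^ (X * pK n) ≤ (n + 1) * HER47.cn C n := by
    calc HER47.bn C n * 2 ^ (X * pK n)
        ≤ (∑ r ∈ Icc (pK n) n, 2 ^ (C0 * pL n * pl n ^ 2 * r) * HER47.cn C (n - r)) *
            2 ^ (X * pK n) := Nat.mul_le_mul_right _ (hn₀ C hC n hn0)
      _ = ∑ r ∈ Icc (pK n) n, 2 ^ (C0 * pL n * pl n ^ 2 * r) * HER47.cn C (n - r) *
            2 ^ (X * pK n) := by rw [Finset.sum_mul]
      _ ≤ ∑ r ∈ Icc (pK n) n, HER47.cn C n := Finset.sum_le_sum hterm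
      _ = (n + 1 - pK n) * HER47.cn C n := by
          rw [Finset.sum_const, Nat.card_Icc, smul_eq_mul]
      _ ≤ (n + 1) * HER47.cn C n := Nat.mul_le_mul_right _ (Nat.sub_le _ _)
  have hnum := INM_.num (show 64 ≤ pl n by omega)
  rw [← hX] at hnum
  have hsum' : (HER47.bn C n : ℝ) * 2 ^ (X * pK n) ≤ ((n : ℝ) + 1) * HER47.cn C n := by
    exact_mod_cast hsum
  have hfin : ((n : ℝ) + 1) * ((2 : ℝ) ^ ((n : ℝ) / Real.logb 2 n) * (HER47.bn C n : ℝ)) ≤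
      ((n : ℝ) + 1) * HER47.cn C n := by
    calc ((n : ℝ) + 1) * ((2 : ℝ) ^ ((n : ℝ) / Real.logb 2 n) * (HER47.bn C n : ℝ))
        = (HER47.bn C n : ℝ) * (((n : ℝ) + 1) * (2 : ℝ) ^ ((n : ℝ) / Real.logb 2 n)) := by ring
      _ ≤ (HER47.bn C n : ℝ) * 2 ^ (X * pK n) :=
          mul_le_mul_of_nonneg_left hnum (by positivity)
      _ ≤ _ := hsum'
  exact le_of_mul_le_mul_left hfin (by positivity)

end Pool.Agent.NRM
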