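import Pool.Agent.NRC.All
import Pool.Agent.NRM.P_ELM
import Pool.Agent.NRM.P_SEM
import Pool.Agent.NRM.P_DIM
import Pool.Agent.NRM.P_LPP
import Pool.Agent.NRM.P_STM
import Pool.Agent.NRM.P_NBM
import Pool.Agent.NRM.P_BET
import Pool.Agent.NRM.P_NIC
import Pool.Agent.NRM.P_ZEX
import Pool.Agent.NRM.P_MGD
import Pool.Agent.NRM.P_RCM
import Pool.Agent.NRM.P_ONM
import Pool.Agent.NRM.P_HLM
import Pool.Agent.NRM.P_CTM
import Pool.Agent.NRM.P_AVM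
import Pool.Agent.NRM.P_MAX
import Pool.Agent.NRM.P_ALM
import Pool.Agent.NRM.P_SUM
import Pool.Agent.NRM.P_INM
import Pool.Agent.HER47.P_CODE
import Pool.Agent.HER47.P_UNI

/-!
# NRM: composition
-/

set_option autoImplicit false

namespace Pool.Agent.NRM

open Finset Classical

theorem a_STM : T_STM := p_STM NRC.p_ESM NRC.p_EHI p_ELM NRC.p_SYM p_SEM p_DIM NRC.p_CON NRC.p_ROO
  NRC.p_BTB p_LPP

theorem a_ZEX : T_ZEX := p_ZEX NRC.p_NCV NRC.p_SYM p_NIC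

theorem a_MGD : T_MGD := p_MGD NRC.p_SML p_BET

theorem a_ONM : T_ONM := p_ONM a_STM a_ZEX a_MGD p_RCM p_NBM NRC.a_EMC NRC.p_NPA NRC.p_NX NRC.p_NF
  NRC.p_RMS

theorem a_HLM : T_HLM := p_HLM NRC.p_RSQ NRC.p_NPA a_ONM

theorem a_AVM : T_AVM := p_AVM a_HLM p_CTM NRC.p_NPA

theorem a_ALM : T_ALM := p_ALM a_AVM p_MAX HER47.p_CODE

theorem a_SUM : T_SUM := p_SUM a_ALM

theorem a_INM : T_INM := p_INM a_ALM

end Pool.Agent.NRM
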