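import Pool.Agent.NRM.Targets
import Pool.Agent.HER47.P_UNI

/-!
# NRM: hereditary classes with `n ^ (A n (log log n) ^ 2)` members
-/

set_option autoImplicit false

namespace Pool.Agent.NRM

open Finset Classical

/-- `Big2` is monotone in the constant. -/
theorem Big2_mono {A B : ℝ} (h : A ≤ B) {C : HER47.Cls} {n : ℕ} (hB : Big2 B C n) :
    Big2 A C n := by
  unfold Big2 at *
  rcases Nat.eq_zero_or_pos n with rfl | hn
  · simpa using hB
  · refine le_trans ?_ hB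
    refine Real.rpow_le_rpow_of_exponent_le (by exact_mod_cast hn) ?_
    refine mul_le_mul_of_nonneg_right ?_ (sq_nonneg _)
    exact mul_le_mul_of_nonneg_right h (Nat.cast_nonneg _)

/-- **Hereditary classes just above the factorial layer.** -/
theorem final_two (h_SUM : T_SUM) (h_INM : T_INM) : ∃ A : ℝ, 0 < A ∧
    (∀ C : HER47.Cls, HER47.Her C →
      ((∀ (V W : Type) [Finite V] [Finite W] (G : SimpleGraph V) (H : SimpleGraph W),
        C V G → C W H → C (V ⊕ W) (G ⊕g H)) ∨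
      (∀ (V W : Type) [Finite V] [Finite W] (G : SimpleGraph V) (H : SimpleGraph W),
        C V G → C W H → C (V ⊕ W) ((Gᶜ ⊕g Hᶜ)ᶜ))) →
      (∃ N : ℕ, ∀ n : ℕ, N ≤ n → Big2 A C n) → ∃ N : ℕ, ∀ n : ℕ, N ≤ n →
        (2 : ℝ) ^ ((n : ℝ) / Real.logb 2 n) * (HER47.bn C n : ℝ) ≤ (HER47.cn C n : ℝ)) ∧
    (∀ C : HER47.Cls, HER47.Her C → (∀ N : ℕ, ∃ n : ℕ, N ≤ n ∧ Big2 A C n) →
      ∀ N : ℕ, ∃ n : ℕ, N ≤ n ∧
        (2 : ℝ) ^ ((n : ℝ) / Real.logb 2 n) * (HER47.bn C n : ℝ) ≤ (HER47.cn C n : ℝ)) := by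
  obtain ⟨A1, h1, hS⟩ := h_SUM
  obtain ⟨A2, h2, hI⟩ := h_INM
  refine ⟨max A1 A2, lt_max_of_lt_left h1, fun C hC hU hB => ?_, fun C hC hB => ?_⟩
  · obtain ⟨N, hN⟩ := hB
    exact hS C hC (HER47.p_UNI C hC hU) ⟨N, fun n hn => Big2_mono (le_max_left _ _) (hN n hn)⟩
  · refine hI C hC fun N => ?_
    obtain ⟨n, hn, h⟩ := hB N
    exact ⟨n, hn, Big2_mono (le_max_right _ _) h⟩

end Pool.Agent.NRM
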