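import Pool.Agent.NRM.Targets

/-!
# NRM, target AVM
-/

set_option autoImplicit false

open Finset Classical

namespace Pool.Agent.NRM

open Pool.Agent Pool.Agent.Lib.Recon Pool.Agent.RNB Pool.Agent.NRC

theorem p_AVM (h_HLM : T_HLM) (h_CTM : T_CTM) (h_NPA : NRC.T_NPA) : T_AVM := by
  obtain ⟨n1, h1⟩ := h_HLM
  obtain ⟨n2, h2⟩ := h_NPA
  refine ⟨max (max n1 n2) 1, ?_⟩
  intro C hC n hn
  have hn1 : n1 ≤ n := ((le_max_left _ _).trans (le_max_left _ _)).trans hn
  have hn2 : n2 ≤ n := ((le_max_right _ _).trans (le_max_left _ _)).trans hn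
  have hn3 : 1 ≤ n := (le_max_right _ _).trans hn
  obtain ⟨hN, -⟩ := h2 n hn2
  have hk : pK n ≤ n := Nat.div_le_self _ _
  set B : ℕ := n.choose (pK n) *
    (HER47.cn C (n - pK n) * (2 * n ^ 3 * 2 ^ (pM n)) ^ (pK n)) with hB
  -- the predicate
  let P : SimpleGraph (Fin n) → Fin (pN n) × (Fin (pN n) → Fin n) → Prop := fun G p =>
    ∃ Z : Finset (Fin n), Z.card = pK n ∧ GdM G (pg n) (pM n) (Bi ∅ p.2 p.1) Z
  let S : Finset (SimpleGraph (Fin n)) := univ.filter (fun G => C (Fin n) G ∧ ¬ HER47.Rec G ∧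
    ∃ Y : Finset (Fin n), Y.card ≤ pK n ∧ Far G (pd n) Y)
  have hS : Nat.card {G : SimpleGraph (Fin n) // C (Fin n) G ∧ ¬ HER47.Rec G ∧
      ∃ Y : Finset (Fin n), Y.card ≤ pK n ∧ Far G (pd n) Y} = S.card := by
    rw [Nat.card_eq_fintype_card, Fintype.card_subtype]
  rw [hS]
  have hcard : Fintype.card (Fin n) = n := Fintype.card_fin n
  have hlow : ∀ G ∈ S, Fintype.card (Fin (pN n) × (Fin (pN n) → Fin n)) ≤
      2 * (univ.filter (fun p => P G p)).card := by
    intro G hG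
    obtain ⟨-, hC', hR, Y, hY, hF⟩ := mem_filter.1 hG
    have h := h1 (Fin n) G (by rw [hcard]; exact hn1) hR Y (by rw [hcard]; exact hY)
      (by rw [hcard]; exact hF)
    have gen : ∀ m : ℕ, m = n → (Fintype.card (Fin (pN m) × (Fin (pN m) → Fin n)) ≤
        2 * (univ.filter (fun p : Fin (pN m) × (Fin (pN m) → Fin n) =>
          ∃ Z : Finset (Fin n), Z.card = pK m ∧ GdM G (pg m) (pM m) (Bi ∅ p.2 p.1) Z)).card) →
        Fintype.card (Fin (pN n) × (Fin (pN n) → Fin n)) ≤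
          2 * (univ.filter (fun p => P G p)).card := by
      intro m hm h
      subst hm
      exact h
    exact gen _ hcard h
  have hup : ∀ p : Fin (pN n) × (Fin (pN n) → Fin n), (S.filter (fun G => P G p)).card ≤ B := by
    intro p
    have h := h_CTM C hC n (pK n) (pg n) (pM n) (Bi ∅ p.2 p.1) hk
    rw [Nat.card_eq_fintype_card, Fintype.card_subtype] at h
    refine le_trans (card_le_card ?_) h
    intro G hG
    obtain ⟨hG1, hG2⟩ := mem_filter.1 hG
    exact mem_filter.2 ⟨mem_univ _, (mem_filter.1 hG1).2.1, hG2⟩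
  set Ω : ℕ := Fintype.card (Fin (pN n) × (Fin (pN n) → Fin n)) with hΩ
  have hΩ0 : 0 < Ω := by
    rw [hΩ, Fintype.card_prod, Fintype.card_fun, Fintype.card_fin, Fintype.card_fin]
    exact Nat.mul_pos hN (pow_pos hn3 _)
  have hsum : S.card * Ω ≤ (2 * B) * Ω := by
    calc S.card * Ω = ∑ _G ∈ S, Ω := by rw [sum_const, smul_eq_mul]
      _ ≤ ∑ G ∈ S, 2 * (univ.filter (fun p => P G p)).card := sum_le_sum hlow
      _ = 2 * ∑ G ∈ S, (univ.filter (fun p => P G p)).card := by rw [mul_sum]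
      _ = 2 * ∑ p, (S.filter (fun G => P G p)).card := by
        congr 1
        simp only [card_filter]
        rw [sum_comm]
      _ ≤ 2 * ∑ _p : Fin (pN n) × (Fin (pN n) → Fin n), B := by
        refine Nat.mul_le_mul_left _ (sum_le_sum fun p _ => hup p)
      _ = (2 * B) * Ω := by
        rw [sum_const, card_univ, smul_eq_mul, hΩ]
        ring
  exact Nat.le_of_mul_le_mul_right hsum hΩ0

end Pool.Agent.NRM
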