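import Pool.Agent.NRC.Targets
import Pool.Agent.HER47.Targets

/-!
# NRM: hereditary classes just above the factorial layer (MP_552896_co)

Project NRM (owner helper39), second part of NRC: several vertices are removed at once. One file per
target: `Pool/Agent/NRM/P_X.lean`, theorem `Pool.Agent.NRM.p_X (other targets) : T_X`; all targets
`T_..` of NRC (namespace `Pool.Agent.NRC`) may be used as hypotheses too (`h : NRC.T_SYM` etc.; most
of them are already proved, files `Pool/Agent/NRC/P_X.lean`). Notation of the docstrings as in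
`NRC/Targets.lean`: `E = EE G g A`, `LA`, `LL`, `In y = IN G (2 * g) A y`,
`side z y = cl G (insert z A) y`, `rc y = cl G (A ∪ E) y`.
-/

set_option autoImplicit false

open Finset Classical

namespace Pool.Agent.NRM

open Pool.Agent Pool.Agent.Lib.Recon Pool.Agent.RNB Pool.Agent.NRC

variable {V : Type} [Fintype V]

/-! ### definitions -/

/-- two vertices outside `Y` are distinguished by at least `d` vertices -/
def Far (G : SimpleGraph V) (d : ℕ) (Y : Finset V) : Prop :=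
  ∀ u v, u ∉ Y → v ∉ Y → u ≠ v → d ≤ (dset G u v).card

/-- the good vertices -/
noncomputable def P0 (G : SimpleGraph V) (g q h d : ℕ) (A Y : Finset V) : Finset V :=
  LL G g q h d A \ Y

/-- the good vertices in classes with many good vertices -/
noncomputable def PP (G : SimpleGraph V) (g q h d : ℕ) (A Y : Finset V) : Finset V :=
  (P0 G g q h d A Y).filter (fun y => (cl G (A ∪ EE G g A) y).card ≤
    2 * (cl G (A ∪ EE G g A) y ∩ P0 G g q h d A Y).card)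

/-- the small closed components -/
noncomputable def SC (G : SimpleGraph V) (g M : ℕ) (A P : Finset V) : Finset (Finset V) :=
  (P.filter (fun y => (CO G g A P y).card ≤ M ∧
    ∀ a ∈ CO G g A P y, IN G (2 * g) A a ⊆ CO G g A P y)).image (CO G g A P)

/-- the side of `y` with respect to `z`, outside `Z` -/
noncomputable def sz (G : SimpleGraph V) (A Z : Finset V) (z y : V) : Finset V :=
  cl G (insert z A) y \ Z

/-- a step back along an arrow of the graph without `Z` -/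
def Ars (G : SimpleGraph V) (g : ℕ) (A Z : Finset V) (y z : V) : Prop :=
  z ∉ A ∧ y ∉ A ∧ z ∉ Z ∧ y ∉ Z ∧ z ≠ y ∧ (sz G A Z z y).card ≤ g

/-- the vertices from which `w` can be reached in the graph without `Z` -/
noncomputable def BRs (G : SimpleGraph V) (g : ℕ) (A Z : Finset V) (w : V) : Finset V :=
  univ.filter (fun y => Relation.ReflTransGen (Ars G g A Z) w y)

/-- the neighbours of all vertices of `Z` are described by codes -/
def GdM (G : SimpleGraph V) (g M : ℕ) (A Z : Finset V) : Prop :=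
  (∀ v ∈ Z, v ∉ A) ∧ ∃ (w u1 u2 : V → V) (b : V → Bool) (S : V → Finset V), ∀ v ∈ Z,
    w v ∉ Z ∧ u1 v ∉ Z ∧ u2 v ∉ Z ∧ (BRs G g A Z (w v)).card ≤ M ∧
    S v ⊆ BRs G g A Z (w v) ∧
    (∀ z, z ∉ Z → (G.Adj z v ↔
      if z ∈ BRs G g A Z (w v) then z ∈ S v
      else if z = u1 v then b v = true
      else if z ∈ A then G.Adj z (u1 v)
      else (G.Adj z (u1 v) ↔ ¬ (sz G A Z z (u1 v)).card ≤ g))) ∧
    ∀ v' ∈ Z, v' ≠ v → (G.Adj v' v ↔
      (G.Adj (u2 v') (u1 v) ↔ ¬ (sz G A Z (u2 v') (u1 v)).card ≤ g))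

/-- large sides stay large outside `Z` -/
def Nice (G : SimpleGraph V) (g : ℕ) (A Z : Finset V) : Prop :=
  ∀ z y, z ∉ A → y ∉ A → y ≠ z → 2 * g < (cl G (insert z A) y).card → g < (sz G A Z z y).card

/-- `v` is a vertex of the small closed set `W`, the only one in `Z`, and not a cut vertex -/
def Att (G : SimpleGraph V) (g q M : ℕ) (A Z W : Finset V) (v : V) : Prop :=
  W ⊆ LA G g q A ∧ (∀ y ∈ W, IN G (2 * g) A y ⊆ W) ∧ W.card ≤ M ∧ v ∈ W ∧ W ∩ Z = {v} ∧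
    ∃ w ∈ W, w ≠ v ∧ ∀ y ∈ W, y ≠ v →
      Relation.ReflTransGen (fun a b => b ∈ W ∧ b ≠ v ∧ b ∈ IN G (2 * g) A a) w y

/-- the number of removed vertices -/
def pK (n : ℕ) : ℕ := n / (1000 * pL n ^ 2)

/-- `C` has many members on `n` vertices -/
def Big2 (A0 : ℝ) (C : HER47.Cls) (n : ℕ) : Prop :=
  (n : ℝ) ^ (A0 * n * Real.logb 2 (Real.logb 2 n) ^ 2) ≤ (HER47.cn C n : ℝ)

/-! ## A. the dichotomy -/

/-- ELM. PROOF. As `NRC.T_ELO` (copy P_ELO.lean): two different elements `y, y'` of the set on the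
left with `y' ∈ rc y` are outside `Y`, so `d ≤ |dset G y y'| ≤ |In y| + |In y'| < d`. -/
def T_ELM : Prop := ∀ (V : Type) [Fintype V] (G : SimpleGraph V) (g q d : ℕ) (A Y : Finset V),
  Far G d Y →
  q * ((LA G g q A \ Y).filter (fun y => 2 * (IN G (2 * g) A y).card < d)).card ≤
    Fintype.card V

/-- SEM. PROOF. As `NRC.T_SEL` (copy P_SEL.lean) with `J = P0 ⊆ LL` and `J'` = the pairs `(u, v)`
with `u, v ∉ Y`, `Pr G g q h d A u v`. -/
def T_SEM : Prop := ∀ (V : Type) [Fintype V] (G : SimpleGraph V) (g q h d k : ℕ)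
  (A Y : Finset V), 1 ≤ Fintype.card V → d ≤ Fintype.card V → Far G d Y →
  ∃ R X : Finset V, R.card ≤ k ∧
    (X.card : ℝ) ≤ ((Fintype.card V : ℝ) * (1 + q + h * (2 * g))) *
      (1 - (d : ℝ) / (2 * Fintype.card V)) ^ k ∧
    (∀ y ∈ P0 G g q h d A Y, y ∉ X → ∃ r ∈ R, r ∈ IN G (2 * g) A y) ∧
    ∀ u v, u ∉ X → u ∉ Y → v ∉ Y → Pr G g q h d A u v → ∃ r ∈ R, r ∈ dset G u v

/-- DIM. PROOF. As `NRC.T_DIS` (copy P_DIS.lean): `u, v ∉ T`, so `u, v ∉ Y`; `v ∈ LA`, `v ∉ T` gives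
`v ∈ PP ⊆ P0 ⊆ LL`. -/
def T_DIM : Prop := ∀ (V : Type) [Fintype V] (G : SimpleGraph V) (g q h d : ℕ)
  (A Y R X T : Finset V), A ∪ EE G g A ⊆ T → LA G g q A \ PP G g q h d A Y ⊆ T → Y ⊆ T →
  X ⊆ T → R ⊆ T →
  (∀ y ∈ P0 G g q h d A Y, y ∉ X → ∃ r ∈ R, r ∈ IN G (2 * g) A y) →
  (∀ u v, u ∉ X → u ∉ Y → v ∉ Y → Pr G g q h d A u v → ∃ r ∈ R, r ∈ dset G u v) → Dst G T

/-- LPP. PROOF. `LA \ P0` is contained in the union of the two filters and `Y`. For `y ∈ P0 \ PP` the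
class `C = rc y ⊆ LA` (`rc y' = rc y` for `y' ∈ rc y`, and `rc y` is disjoint from `A ∪ E`) has
`2 |C ∩ P0| < |C|`, so `|C ∩ P0| ≤ |C \ P0|`; the classes are disjoint, so
`|P0 \ PP| ≤ |LA \ P0|`. (For example: the map `C ∩ P0 → C \ P0` may be chosen injective; or sum
over the classes; or count the pairs `(y, y')`, `y ∈ P0 \ PP`, `y' ∈ rc y`, with weight
`1 / |rc y|`.) And `LA \ PP = (LA \ P0) ∪ (P0 \ PP)`. -/
def T_LPP : Prop := ∀ (V : Type) [Fintype V] (G : SimpleGraph V) (g q h d : ℕ)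
  (A Y : Finset V), (LA G g q A \ PP G g q h d A Y).card ≤
    2 * (((LA G g q A).filter (fun y => h < (IN G (2 * g) A y).card)).card +
      ((LA G g q A \ Y).filter (fun y => 2 * (IN G (2 * g) A y).card < d)).card + Y.card)

/-- STM (from NRC.T_ESM, NRC.T_EHI, ELM, NRC.T_SYM, SEM, DIM, NRC.T_CON, NRC.T_ROO, NRC.T_BTB, LPP).
PROOF. As `NRC.T_STR` (copy P_STR.lean) with `P = PP`, and
`B = A ∪ E ∪ (LA \ PP) ∪ Y ∪ X ∪ Q ∪ Q2`, where `Q2` contains one element of each member of `SC`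
(the members are nonempty). Fourth hypothesis of CON, `y ∈ PP`, `W = CO y`: if `|W| > M` a root in
`Q`; if `|W| ≤ M` and `W` is closed then `W ∈ SC` and a root in `Q2`; otherwise some `y0 ∈ W` has
`s ∈ In y0`, `s ∉ W`, so `s ∉ PP`. -/
def T_STM : Prop := ∀ (V : Type) [Fintype V] (G : SimpleGraph V) (g q h d M k : ℕ)
  (A Y : Finset V), 1 ≤ Fintype.card V → 1 ≤ g → 4 * g + h + 2 ≤ q → 1 ≤ d →
  d ≤ Fintype.card V → Far G d Y →
  ∃ (B T : Finset V) (e e1 e2 x c : ℕ), Dst G T ∧ Bld G q B T ∧ T.card ≤ B.card + 3 * k ∧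
    B.card ≤ A.card + e + 2 * (e1 + e2 + Y.card) + Y.card + x + c +
      (SC G g M A (PP G g q h d A Y)).card ∧
    g * e ≤ sm G A ∧ h * e1 ≤ sm G A ∧
    q * e2 ≤ Fintype.card V ∧ M * c ≤ Fintype.card V ∧
    (x : ℝ) ≤ ((Fintype.card V : ℝ) * (1 + q + h * (2 * g))) *
      (1 - (d : ℝ) / (2 * Fintype.card V)) ^ k

/-- NBM. PROOF. As `NRC.T_NB` (P_NB.lean) with the additional terms `e1 + e2 + 3 y + s`, where
`3 y + s ≤ 11 pK n ≤ 11 n / (1000 L^2)`. -/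
def T_NBM : Prop := ∃ n0 : ℕ, ∀ n : ℕ, n0 ≤ n → ∀ a e e1 e2 x c y s b t : ℕ, a ≤ pN n →
  (pg n : ℝ) * e ≤ 4 * n * (pL n : ℝ) ^ 3 → (pg n : ℝ) * e1 ≤ 4 * n * (pL n : ℝ) ^ 3 →
  pq n * e2 ≤ n → pM n * c ≤ n → (x : ℝ) * (pL n : ℝ) ^ 2 ≤ n → y ≤ pK n → s ≤ 8 * pK n →
  b ≤ a + e + 2 * (e1 + e2 + y) + y + x + c + s →
  t ≤ b + 3 * pk n → (b : ℝ) * pL n ≤ n / 50 ∧ (t : ℝ) * pl n ≤ n / 90 ∧ 32 * t ≤ n

/-! ## B. codes for many vertices -/

/-- BET: default adjacency of refined classes. PROOF. Suppose `b := G.Adj a y` and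
`¬ (G.Adj a' y' ↔ b)`. `a, a' ∉ A ∪ E`, `|side a y| > 2 g` (as `a ∉ In y`), so at most `g` of
the `c ∈ cl G A y`, `c ≠ a`, have `¬ (G.Adj a c ↔ b)` (they form one side; `a ∉ E`). Hence
`G.Adj a c ↔ b` for all `c ∈ rc y`, `c ≠ a`, but at most `g`, and in the same way
`¬ (G.Adj a' c ↔ b)` for all `c ∈ rc y' = rc y`, `c ≠ a'`, but at most `g`. As
`|rc y| > q ≥ 2 (g + h + 1)` there is `c ∈ rc y` with `c ≠ a, a'`, `G.Adj a c ↔ b`,
`¬ (G.Adj a' c ↔ b)`, `c ∉ In a`, `c ∉ In a'`. `c ∉ A ∪ E`, `|side c a| > 2 g`, so at most `g` of the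
`x ∈ cl G A a`, `x ≠ c`, have `¬ (G.Adj c x ↔ b)`; and at most `g` of the `x ∈ cl G A a' = cl G A a`,
`x ≠ c`, have `G.Adj c x ↔ b`. So `q < |rc a| ≤ |cl G A a| ≤ 2 g + 1`, a contradiction. -/
def T_BET : Prop := ∀ (V : Type) [Fintype V] (G : SimpleGraph V) (g q h : ℕ) (A : Finset V),
  2 * (g + h + 1) ≤ q → ∀ a a' y y', a ∈ LA G g q A → a' ∈ cl G (A ∪ EE G g A) a →
  y ∈ LA G g q A → y' ∈ cl G (A ∪ EE G g A) y →
  (IN G (2 * g) A a).card ≤ h → (IN G (2 * g) A a').card ≤ h → a ≠ y → a' ≠ y' →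
  a ∉ IN G (2 * g) A y → a' ∉ IN G (2 * g) A y' → (G.Adj a y ↔ G.Adj a' y')

/-- NIC. PROOF. For `S ∈ F` choose `S' ⊆ S` with `2 g + 1` elements. For a colour `c : Fin 8` at most
`2^(2g+1) * 8^(n-g-1) = 8^n / 2^(g+2)` functions `f : V → Fin 8` have the value `c` on at
least `g + 1` elements of `S'` (union over the subsets `J ⊆ S'` with `g + 1` elements of the
functions with value `c` on `J`; `8^(n - |J|)` each). Since `8 |F| < 2^(g+2)` some `f` is good for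
all `S` and `c`. Some colour `c` occurs on at least `|D| / 8` elements of `D`; `Z` = these
elements. `|S \ Z| ≥ |S'| - g = g + 1`. (`n = |V|`; if `|J| > n` there is nothing to count.) -/
def T_NIC : Prop := ∀ (V : Type) [Fintype V] (D : Finset V) (F : Finset (Finset V)) (g : ℕ),
  (∀ S ∈ F, 2 * g < S.card) → 8 * F.card < 2 ^ (g + 2) →
  ∃ Z ⊆ D, D.card ≤ 8 * Z.card ∧ ∀ S ∈ F, g < (S \ Z).card

/-- ZEX (from NRC.T_NCV, NRC.T_SYM, NIC). PROOF. `P = PP ⊆ LL ⊆ LA`; inside `P` the arrows are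
symmetric (SYM), so the sets `CO y`, `y ∈ P`, are disjoint or equal. For `W ∈ SC`, `W = CO y`:
`W ⊆ P`, closed, `|W| ≤ M`, `2 ≤ |W|` (`1 ≤ d ≤ 2 |In y|`, `In y ⊆ W`), every element of `W` is
reached from `y` inside `W`; NCV gives `v_W, w_W ∈ W`. The `v_W` are different for different `W`;
`D` = the set of the `v_W`, `|D| = |SC| ≥ 8 k`. NIC with `F` = the sets `side z y` (`z, y ∉ A`,
`y ≠ z`, more than `2 g` elements) and `rc y ∩ P0` for `y ∈ PP` (at least `|rc y| / 2 > q / 2 ≥ 2 g`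
elements), `|F| ≤ 2 n^2`. Take a subset `Z` with exactly `k` elements of the set given by NIC (this
keeps the property). `W_v ∩ Z = {v}` for `v = v_W ∈ Z` (`D ∩ W = {v_W}`). -/
def T_ZEX : Prop := ∀ (V : Type) [Fintype V] (G : SimpleGraph V) (g q h d M k : ℕ)
  (A Y : Finset V), 1 ≤ g → 4 * g + h + 2 ≤ q → 1 ≤ d →
  8 * (2 * Fintype.card V ^ 2) < 2 ^ (g + 2) →
  8 * k ≤ (SC G g M A (PP G g q h d A Y)).card →
  ∃ Z : Finset V, Z.card = k ∧ Nice G g A Z ∧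
    ∀ v ∈ Z, v ∈ PP G g q h d A Y ∧
      g < ((cl G (A ∪ EE G g A) v ∩ P0 G g q h d A Y) \ Z).card ∧ ∃ W, Att G g q M A Z W v

/-- MGD (from NRC.T_SML, BET). PROOF. As `NRC.T_GDW` (see P_GDW.lean). `Z ⊆ PP ⊆ LL ⊆ LA`, so
`v ∉ A ∪ E` for `v ∈ Z`. For each refined class `C` which meets `Z` choose two different elements
`f1 C, f2 C` of `(C ∩ P0) \ Z` (more than `g ≥ 1` elements); `u1 v = f1 (rc v)`,
`u2 v = f2 (rc v)`; so `u2 v' ≠ u1 v` for all `v, v' ∈ Z` (same class: by choice; different classes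
are disjoint). Let `v ∈ Z`, `W`, `w v` from `Att`. (1) For `a ∈ W`, `a ≠ v` (so `a ∉ Z`) and
`z ∉ Z`: `Ars G g A Z a z` iff `z ∈ In a`: if `z ∈ In a` then `z ∈ W ⊆ LA`, `z ∉ E`, `|side z a| ≤ g`
by SML; if `z ∉ A`, `z ≠ a`, `z ∉ In a` then `|side z a| > 2 g` and `Nice` gives `|sz| > g`. So
`BRs G g A Z (w v) = W.erase v`. (2) `z ∉ Z`, `z ∉ W`, `z ≠ u1 v`: as in GDW (2), with `Nice` in
place of `|side| ≤ |sd| + 1`: if `|sz z (u1 v)| ≤ g` then `|side z (u1 v)| ≤ 2 g` by `Nice`.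
(3) `v' ∈ Z`, `v' ≠ v`: `v' ∉ W ⊇ In v`. `|sz (u2 v') (u1 v)| ≤ g` iff `u2 v' ∈ In (u1 v)` (SML and
`Nice` as in (1); `u2 v' ∉ A ∪ E`, `u1 v ∈ LA`). If `u2 v' ∉ In (u1 v)`: BET with `a = v'`,
`a' = u2 v'`, `y = v`, `y' = u1 v` gives `G.Adj v' v ↔ G.Adj (u2 v') (u1 v)` (the indegrees are
`≤ h` as these vertices are in `LL`). If `u2 v' ∈ In (u1 v)`, `a' = u2 v'`: the side of `u1 v` with
respect to `a'` is small, `≤ 2 g`, so there is `y' ∈ rc v`, `y' ≠ a'` on the other side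
(`|rc v| > q ≥ 2 g + 1`), `¬ (G.Adj a' y' ↔ G.Adj a' (u1 v))`, and `a' ∉ In y'` can be achieved:
the other side has more than `q - 2 g - 1 ≥ 2 g` elements, all of them `y'` with
`|side a' y'| > 2 g`. BET with this `y'` gives `G.Adj v' v ↔ G.Adj a' y'`. -/
def T_MGD : Prop := ∀ (V : Type) [Fintype V] (G : SimpleGraph V) (g q h d M : ℕ)
  (A Y Z : Finset V), 1 ≤ g → 4 * g + h + 2 ≤ q → 2 * (g + h + 1) ≤ q → Nice G g A Z →
  (∀ v ∈ Z, v ∈ PP G g q h d A Y ∧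
      g < ((cl G (A ∪ EE G g A) v ∩ P0 G g q h d A Y) \ Z).card ∧
      ∃ W, Att G g q M A Z W v) → GdM G g M A Z

/-! ## C. non-reconstructible graphs -/

/-- RCM. PROOF. Let `W, H, f` be as in the definition of `Rec`. `H' = H.comap f` is a graph on `V`, and
`CardIso G H' v v` for all `v` (`cardIso_of_orderIso`, see the end of RNB/Final.lean), so `G ≅ H' ≅ H`
and `orderIso_of_iso`. -/
def T_RCM : Prop := ∀ (V : Type) [Fintype V] (G : SimpleGraph V), 3 ≤ Fintype.card V →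
  (∀ H : SimpleGraph V, (∀ v, CardIso G H v v) →
    ∃ α : V ≃ V, ∀ x y, G.Adj x y ↔ H.Adj (α x) (α y)) → HER47.Rec G

/-- ONM (from STM, ZEX, MGD, RCM, NBM, NRC.T_EMC, NRC.T_NPA, NRC.T_NX, NRC.T_NF, NRC.T_RMS). PROOF. As
`NRC.T_ONE` (see P_ONE.lean). `n` large, `g = h = pg n`, `q = pq n = 8 g`, `d = pd n`, `M = pM n`,
`k = pk n`. If `8 * pK n ≤ |SC|` then ZEX, MGD (`8 * 2 n^2 < 2^(g + 2)` since `g ≥ 4 L^6`,
`n < 2^L`). Otherwise STM, NBM (`s = |SC| ≤ 8 pK n`), EMC, NX, NF: every `H` with the cards of `G`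
is isomorphic to `G` (RMS), so `Rec G` (RCM). -/
def T_ONM : Prop := ∃ n0 : ℕ, ∀ (V : Type) [Fintype V] (G : SimpleGraph V),
  n0 ≤ Fintype.card V → ¬ HER47.Rec G → ∀ Y : Finset V, Y.card ≤ pK (Fintype.card V) →
  Far G (pd (Fintype.card V)) Y → ∀ A : Finset V, A.card ≤ pN (Fintype.card V) →
  (sm G A : ℝ) ≤ 4 * (Fintype.card V : ℝ) * (pL (Fintype.card V) : ℝ) ^ 3 →
  ∃ Z : Finset V, Z.card = pK (Fintype.card V) ∧
    GdM G (pg (Fintype.card V)) (pM (Fintype.card V)) A Z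

/-- HLM (from NRC.T_RSQ, NRC.T_NPA, ONM). PROOF. As `NRC.T_HLF` (copy P_HLF.lean). -/
def T_HLM : Prop := ∃ n0 : ℕ, ∀ (V : Type) [Fintype V] (G : SimpleGraph V),
  n0 ≤ Fintype.card V → ¬ HER47.Rec G → ∀ Y : Finset V, Y.card ≤ pK (Fintype.card V) →
  Far G (pd (Fintype.card V)) Y →
  Fintype.card (Fin (pN (Fintype.card V)) × (Fin (pN (Fintype.card V)) → V)) ≤
    2 * (univ.filter (fun p : Fin (pN (Fintype.card V)) × (Fin (pN (Fintype.card V)) → V) =>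
      ∃ Z : Finset V, Z.card = pK (Fintype.card V) ∧
        GdM G (pg (Fintype.card V)) (pM (Fintype.card V)) (Bi ∅ p.2 p.1) Z)).card

/-! ## D. counting in a hereditary class -/

/-- CTM: one set `A`. PROOF. Union over the `n.choose k` sets `Z`. For fixed `Z` let
`e : Fin (n - k) ↪ Fin n` have range `Zᶜ` (`orderEmbOfFin`). `G ↦ (G.comap e, (w, u1, u2, b, S)`
restricted to `Z)` is injective on the graphs with `GdM G g M A Z`: for `z, y ∉ Z` (and `A ∩ Z = ∅`)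
`sz G A Z z y`, `Ars G g A Z y z` and `BRs G g A Z w` (`w ∉ Z`) depend only on the adjacency outside
`Z`, and the last two clauses of `GdM` give the adjacencies `z v`, `v' v`. For given `G.comap e` and
`w, u1, u2` there are at most `2^M` sets `S v ⊆ BRs G g A Z (w v)`. `G.comap e` is in `C` by
`Her`. -/
def T_CTM : Prop := ∀ C : HER47.Cls, HER47.Her C → ∀ (n k g M : ℕ) (A : Finset (Fin n)),
  k ≤ n → Nat.card {G : SimpleGraph (Fin n) // C (Fin n) G ∧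
    ∃ Z : Finset (Fin n), Z.card = k ∧ GdM G g M A Z} ≤
    n.choose k * (HER47.cn C (n - k) * (2 * n ^ 3 * 2 ^ M) ^ k)

/-- AVM (from HLM, CTM, NRC.T_NPA). PROOF. `Ω = Fin N × (Fin N → Fin n)`, `N = pN n ≥ 1`, `|Ω| > 0`.
Count the pairs `(G, p)`, `G` in the set on the left, `p ∈ Ω`, such that some `Z` with `|Z| = pK n` has
`GdM G (pg n) (pM n) (Bi ∅ p.2 p.1) Z`: by HLM at least `(left side) * |Ω| / 2`, by CTM at most
`|Ω| * n.choose k * (..)`. -/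
def T_AVM : Prop := ∃ n0 : ℕ, ∀ C : HER47.Cls, HER47.Her C → ∀ n : ℕ, n0 ≤ n →
  Nat.card {G : SimpleGraph (Fin n) // C (Fin n) G ∧ ¬ HER47.Rec G ∧
    ∃ Y : Finset (Fin n), Y.card ≤ pK n ∧ Far G (pd n) Y} ≤
    2 * (n.choose (pK n) * (HER47.cn C (n - pK n) * (2 * n ^ 3 * 2 ^ (pM n)) ^ (pK n)))

/-- MAX. PROOF. Take `M` of maximal cardinality among the sets whose elements are pairwise distinguished
by at least `K` vertices (`HER47.ds G u v = dset G u v`, both are the same filter). `Mᶜ = Y`. -/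
def T_MAX : Prop := ∀ (V : Type) [Fintype V] (G : SimpleGraph V) (K : ℕ),
  ∃ M : Finset V, HER47.Dom K G M ∧ Far G K Mᶜ

/-- ALM (from AVM, MAX, HER47.T_CODE = `HER47.p_CODE`). PROOF. `n` large, `L = pL n`, `l = pl n`,
`K = pd n = 20000 l^2`, `k = pK n ≥ 1`. A non-reconstructible `G` in `C`: take `M` from MAX. If
`|Mᶜ| ≤ k`: counted in AVM: at most
`2 * 2^(L k) * cn C (n - k) * 2^((1 + 3 L + 100 L) k) ≤ 2^(106 L k) * cn C (n - k)` (`n < 2^L`). If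
`r = |Mᶜ| > k`: at most `n.choose r ≤ 2^(L r)` sets `M`, each by CODE at most
`cn C (n - r) * (2 n (n+1)^K)^r ≤ cn C (n - r) * 2^((1 + L + L K) r)` graphs. All exponents are at
most `20003 L l^2 r`; the value `r = k` occurs only in the first case, so the sum over
`r ∈ Icc k n` bounds everything. -/
def T_ALM : Prop := ∃ C0 n0 : ℕ, ∀ C : HER47.Cls, HER47.Her C → ∀ n : ℕ, n0 ≤ n →
  HER47.bn C n ≤ ∑ r ∈ Icc (pK n) n, 2 ^ (C0 * pL n * pl n ^ 2 * r) * HER47.cn C (n - r)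

/-- SUM (from ALM; model: HER47/P_SUP.lean). PROOF. `A0 = 16 (C0 + 1)`. `n` large, `L, l, k = pK n`.
For `r ≥ k ≥ n / (2000 L^2) ≥ sqrt n`: `logb 2 r ≥ (L - 1) / 2 ≥ L / 4`,
`logb 2 (logb 2 r) ≥ log_2 L - 2 ≥ l / 2` (`l ≤ log_2 L + 1`, `l` large), so `Big2 A0 C r` gives
`cn C r ≥ 2^(A0 r (L/4) (l/2)^2) = 2^((C0 + 1) L l^2 r)`. So each term of ALM times `2^(L l^2 k)` is
at most `cn C r * cn C (n - r) ≤ cn C n`, and `bn C n * 2^(L l^2 k) ≤ (n + 1) * cn C n`. Finally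
`L l^2 k ≥ n l^2 / (2000 L) ≥ n / log_2 n + 2 L` for `n` large (`l → ∞`), `n + 1 ≤ 2^(2 L)`. -/
def T_SUM : Prop := ∃ A0 : ℝ, 0 < A0 ∧ ∀ C : HER47.Cls, HER47.Her C →
  (∀ a b : ℕ, HER47.cn C a * HER47.cn C b ≤ HER47.cn C (a + b)) →
  (∃ N : ℕ, ∀ n : ℕ, N ≤ n → Big2 A0 C n) → ∃ N : ℕ, ∀ n : ℕ, N ≤ n →
    (2 : ℝ) ^ ((n : ℝ) / Real.logb 2 n) * (HER47.bn C n : ℝ) ≤ (HER47.cn C n : ℝ)

/-- INM (from ALM; model: HER47/P_INF.lean). PROOF. `A0 = 16 (C0 + 2)`. Otherwise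
`cn C m < 2^(m / log_2 m) * bn C m` for all `m ≥ N1`. Let `D = 1 + ∑_{m ≤ N1} cn C m`. Claim:
`cn C m ≤ D * 2^((C0 + 1) * pL n * pl n ^ 2 * m)` for `m ≤ n` (strong induction): for `m > N1` by
ALM, `cn C m ≤ 2^(m / log_2 m) * ∑_{r ≥ k} 2^(C0 pL m pl m ^ 2 r) * D *
2^((C0 + 1) pL n pl n ^ 2 (m - r))`, `k = pK m`, each term is at most
`D * 2^((C0+1) pL n pl n ^ 2 m) / 2^(pL m pl m ^ 2 k)` and
`(m + 1) 2^(m / log_2 m) ≤ 2^(pL m pl m ^ 2 k)` as in SUM. For `m = n` large this contradicts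
`Big2 A0 C n`, which gives `cn C n ≥ 2^((C0 + 2) pL n pl n ^ 2 n)` as in SUM. -/
def T_INM : Prop := ∃ A0 : ℝ, 0 < A0 ∧ ∀ C : HER47.Cls, HER47.Her C →
  (∀ N : ℕ, ∃ n : ℕ, N ≤ n ∧ Big2 A0 C n) → ∀ N : ℕ, ∃ n : ℕ, N ≤ n ∧
    (2 : ℝ) ^ ((n : ℝ) / Real.logb 2 n) * (HER47.bn C n : ℝ) ≤ (HER47.cn C n : ℝ)

end Pool.Agent.NRM
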